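import Pool.Agent.Work.Energy.Basic

/-! # Rounding real flows with integral divergence -/

set_option autoImplicit false

open Finset Matrix

namespace Pool.Agent.Energy

variable {V E : Type*} [Fintype V] [DecidableEq V] [Fintype E] [DecidableEq E]

omit [Fintype V] [Fintype E] [DecidableEq E] in
theorem inc_apply (s t : E → V) (e : E) (v : V) :
    inc s t e v = (if s e = v then 1 else 0) - (if t e = v then 1 else 0) := by
  simp only [inc, Pi.sub_apply, Pi.single_apply]
  congr 1 <;> simp [eq_comm]

omit [Fintype V] [Fintype E] [DecidableEq E] in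
theorem inc_cases (s t : E → V) (e : E) (v : V) (h : inc s t e v ≠ 0) :
    inc s t e v = 1 ∨ inc s t e v = -1 := by
  rw [inc_apply] at *
  by_cases h1 : s e = v <;> by_cases h2 : t e = v <;> simp [h1, h2] at *

/-- a nonzero circulation on a set of edges without leaves -/
theorem exists_circ (s t : E → V) (F : Finset E) (hF : F.Nonempty)
    (hdeg : ∀ v, (∃ e ∈ F, inc s t e v ≠ 0) → 2 ≤ (F.filter fun e => inc s t e v ≠ 0).card) :
    ∃ f : E → ℝ, (∃ e, f e ≠ 0) ∧ (∀ e, e ∉ F → f e = 0) ∧ ∀ v, ∑ e, f e * inc s t e v = 0 := by
  classical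
  set U : Finset V := univ.filter fun v => ∃ e ∈ F, inc s t e v ≠ 0 with hU
  -- counting
  have hcount : 2 * U.card ≤ 2 * F.card := by
    have h1 : 2 * U.card ≤ ∑ v ∈ U, (F.filter fun e => inc s t e v ≠ 0).card := by
      rw [mul_comm, ← smul_eq_mul, ← Finset.sum_const]
      refine Finset.sum_le_sum fun v hv => hdeg v ?_
      simpa [hU] using hv
    have h2 : ∑ v ∈ U, (F.filter fun e => inc s t e v ≠ 0).card
        ≤ ∑ v : V, (F.filter fun e => inc s t e v ≠ 0).card :=
      Finset.sum_le_sum_of_subset (Finset.subset_univ _)
    have h3 : ∑ v : V, (F.filter fun e => inc s t e v ≠ 0).card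
        = ∑ e ∈ F, (univ.filter fun v => inc s t e v ≠ 0).card := by
      simp only [Finset.card_filter]
      rw [Finset.sum_comm]
    have h4 : ∑ e ∈ F, (univ.filter fun v => inc s t e v ≠ 0).card ≤ ∑ e ∈ F, 2 := by
      refine Finset.sum_le_sum fun e _ => ?_
      have : (univ.filter fun v => inc s t e v ≠ 0) ⊆ {s e, t e} := by
        intro v hv
        simp only [mem_filter, mem_univ, true_and, inc_apply] at hv
        simp only [mem_insert, mem_singleton]
        by_contra hno
        push Not at hno
        apply hv
        rw [if_neg (fun h => hno.1 h.symm), if_neg (fun h => hno.2 h.symm)]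
        simp
      exact le_trans (Finset.card_le_card this) Finset.card_le_two
    rw [Finset.sum_const, smul_eq_mul] at h4
    omega
  rcases U.eq_empty_or_nonempty with hUe | ⟨u0, hu0⟩
  · obtain ⟨e0, he0⟩ := hF
    refine ⟨Pi.single e0 1, ⟨e0, by simp⟩, fun e he => ?_, fun v => ?_⟩
    · have hne : e ≠ e0 := fun h => he (by rw [h]; exact he0)
      simp [Pi.single_apply, hne]
    · have hz : inc s t e0 v = 0 := by
        by_contra hne
        have : v ∈ U := by simp [hU]; exact ⟨e0, he0, hne⟩
        rw [hUe] at this
        exact absurd this (Finset.notMem_empty v)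
      rw [Finset.sum_eq_single e0]
      · simp [hz]
      · intro b _ hb
        simp [Pi.single_eq_of_ne hb]
      · simp
  · -- linear algebra
    let T : (F → ℝ) →ₗ[ℝ] ({v // v ∈ U.erase u0} → ℝ) :=
      { toFun := fun g v => ∑ e : F, g e * inc s t e v
        map_add' := by
          intro g h
          ext v
          simp [add_mul, Finset.sum_add_distrib]
        map_smul' := by
          intro a g
          ext v
          simp [Finset.mul_sum, mul_assoc] }
    have hker : LinearMap.ker T ≠ ⊥ := by
      apply LinearMap.ker_ne_bot_of_finrank_lt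
      rw [Module.finrank_fintype_fun_eq_card, Module.finrank_fintype_fun_eq_card,
        Fintype.card_coe, Fintype.card_coe, Finset.card_erase_of_mem hu0]
      have := Finset.card_pos.2 ⟨u0, hu0⟩
      omega
    obtain ⟨g, hg, hg0⟩ := (Submodule.ne_bot_iff _).1 hker
    set f : E → ℝ := fun e => if h : e ∈ F then g ⟨e, h⟩ else 0 with hf
    have hsum : ∀ v, ∑ e, f e * inc s t e v = ∑ e : F, g e * inc s t e v := by
      intro v
      rw [← Finset.sum_subset (Finset.subset_univ F)]
      · rw [← Finset.sum_coe_sort F]
        refine Finset.sum_congr rfl fun e _ => ?_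
        simp [hf]
      · intro e _ he
        simp [hf, he]
    have hU' : ∀ v ∈ U.erase u0, ∑ e, f e * inc s t e v = 0 := by
      intro v hv
      rw [hsum]
      have := congrFun (LinearMap.mem_ker.1 hg) ⟨v, hv⟩
      simpa [T] using this
    have hout : ∀ v, v ∉ U → ∑ e, f e * inc s t e v = 0 := by
      intro v hv
      rw [hsum]
      refine Finset.sum_eq_zero fun e _ => ?_
      have : inc s t e v = 0 := by
        by_contra hne
        exact hv (by simp only [hU, mem_filter, mem_univ, true_and]; exact ⟨e, e.2, hne⟩)
      simp [this]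
    refine ⟨f, ?_, fun e he => by simp [hf, he], fun v => ?_⟩
    · by_contra hno
      push Not at hno
      apply hg0
      ext e
      have := hno e
      simpa [hf] using this
    · by_cases hv : v ∈ U
      · by_cases hvu : v = u0
        · subst hvu
          have htot : ∑ w, ∑ e, f e * inc s t e w = 0 := by
            rw [Finset.sum_comm]
            refine Finset.sum_eq_zero fun e _ => ?_
            rw [← Finset.mul_sum]
            simp [inc, Finset.sum_sub_distrib]
          rw [← Finset.add_sum_erase _ _ (mem_univ v)] at htot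
          have hrest : ∑ w ∈ univ.erase v, ∑ e, f e * inc s t e w = 0 := by
            refine Finset.sum_eq_zero fun w hw => ?_
            by_cases hwU : w ∈ U
            · exact hU' w (Finset.mem_erase.2 ⟨Finset.ne_of_mem_erase hw, hwU⟩)
            · exact hout w hwU
          rw [hrest, add_zero] at htot
          exact htot
        · exact hU' v (Finset.mem_erase.2 ⟨hvu, hv⟩)
      · exact hout v hv

/-- non-integral real -/
def Frac (x : ℝ) : Prop := ∀ z : ℤ, x ≠ z

theorem frac_floor {x : ℝ} (h : Frac x) : (⌊x⌋ : ℝ) < x ∧ x < (⌊x⌋ : ℝ) + 1 :=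
  ⟨lt_of_le_of_ne (Int.floor_le x) fun h' => h _ h'.symm, Int.lt_floor_add_one x⟩

/-- one rounding step -/
theorem round_step (y f : E → ℝ) (hf0 : ∃ e, f e ≠ 0) (hfF : ∀ e, ¬ Frac (y e) → f e = 0) :
    ∃ τ : ℝ, (∀ e, (⌊y e⌋ : ℝ) ≤ y e + τ * f e ∧ (Frac (y e) → y e + τ * f e ≤ (⌊y e⌋ : ℝ) + 1) ∧
        (¬ Frac (y e) → y e + τ * f e = y e)) ∧
      ∃ e, Frac (y e) ∧ ¬ Frac (y e + τ * f e) := by
  classical
  set A : Finset E := univ.filter fun e => f e ≠ 0 with hA
  have hAne : A.Nonempty := by
    obtain ⟨e, he⟩ := hf0
    exact ⟨e, by simp [hA, he]⟩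
  set g : E → ℝ := fun e =>
    if 0 < f e then ((⌊y e⌋ : ℝ) + 1 - y e) / f e else ((⌊y e⌋ : ℝ) - y e) / f e with hg
  obtain ⟨e0, he0, hmin⟩ := Finset.exists_min_image A g hAne
  have hAfrac : ∀ e ∈ A, Frac (y e) := by
    intro e he
    by_contra hno
    simp only [hA, mem_filter, mem_univ, true_and] at he
    exact he (hfF e hno)
  have hgpos : ∀ e ∈ A, 0 < g e := by
    intro e he
    obtain ⟨h1, h2⟩ := frac_floor (hAfrac e he)
    simp only [hA, mem_filter, mem_univ, true_and] at he
    simp only [hg]
    split_ifs with h
    · exact div_pos (by linarith) h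
    · have : f e < 0 := lt_of_le_of_ne (not_lt.1 h) he
      exact div_pos_of_neg_of_neg (by linarith) this
  refine ⟨g e0, fun e => ?_, e0, hAfrac e0 he0, ?_⟩
  · by_cases he : f e = 0
    · simp only [he, mul_zero, add_zero]
      exact ⟨Int.floor_le _, fun _ => (Int.lt_floor_add_one _).le, fun _ => trivial⟩
    · have heA : e ∈ A := by simp [hA, he]
      have h1 := hmin e heA
      have h2 := hgpos e0 he0
      obtain ⟨h3, h4⟩ := frac_floor (hAfrac e heA)
      refine ⟨?_, fun _ => ?_, fun hno => absurd (hAfrac e heA) hno⟩
      · simp only [hg] at h1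
        by_cases hpos : 0 < f e
        · have : 0 ≤ g e0 * f e := by positivity
          linarith
        · have hneg : f e < 0 := lt_of_le_of_ne (not_lt.1 hpos) he
          rw [if_neg hpos] at h1
          change g e0 ≤ _ at h1
          rw [le_div_iff_of_neg hneg] at h1
          linarith
      · simp only [hg] at h1
        by_cases hpos : 0 < f e
        · rw [if_pos hpos] at h1
          change g e0 ≤ _ at h1
          rw [le_div_iff₀ hpos] at h1
          linarith
        · have hneg : f e < 0 := lt_of_le_of_ne (not_lt.1 hpos) he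
          have : g e0 * f e ≤ 0 := mul_nonpos_of_nonneg_of_nonpos h2.le hneg.le
          linarith
  · intro hfr
    have he0' : f e0 ≠ 0 := by simpa [hA] using he0
    by_cases hpos : 0 < f e0
    · apply hfr (⌊y e0⌋ + 1)
      have : g e0 = ((⌊y e0⌋ : ℝ) + 1 - y e0) / f e0 := by simp only [hg]; rw [if_pos hpos]
      rw [this, div_mul_cancel₀ _ he0']
      push_cast
      ring
    · apply hfr ⌊y e0⌋
      have : g e0 = ((⌊y e0⌋ : ℝ) - y e0) / f e0 := by simp only [hg]; rw [if_neg hpos]
      rw [this, div_mul_cancel₀ _ he0']
      ring

theorem exists_round (s t : E → V) (a b : E → ℤ) (d : V → ℤ) :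
    ∀ (n : ℕ) (y : E → ℝ), (∀ e, (a e : ℝ) ≤ y e ∧ y e ≤ b e) →
      (∀ v, ∑ e, y e * inc s t e v = d v) →
      (∃ F : Finset E, F.card ≤ n ∧ ∀ e, Frac (y e) → e ∈ F) →
      ∃ z : E → ℤ, (∀ e, a e ≤ z e ∧ z e ≤ b e) ∧ ∀ v, ∑ e, (z e : ℝ) * inc s t e v = d v := by
  classical
  intro n
  induction n with
  | zero =>
    intro y hy hd ⟨F, hF, hFr⟩
    have hF0 : F = ∅ := Finset.card_eq_zero.1 (Nat.le_zero.1 hF)
    have : ∀ e, ∃ z : ℤ, y e = z := by
      intro e
      by_contra hno
      push Not at hno
      have := hFr e hno
      rw [hF0] at this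
      exact absurd this (Finset.notMem_empty e)
    choose z hz using this
    refine ⟨z, fun e => ?_, fun v => ?_⟩
    · have := hy e
      rw [hz e] at this
      exact_mod_cast this
    · rw [← hd v]
      exact Finset.sum_congr rfl fun e _ => by rw [hz e]
  | succ n ih =>
    intro y hy hd ⟨F, hF, hFr⟩
    by_cases hall : ∀ e, ¬ Frac (y e)
    · exact ih y hy hd ⟨∅, by simp, fun e he => absurd he (hall e)⟩
    · push Not at hall
      set G : Finset E := univ.filter fun e => Frac (y e) with hG
      have hGF : G ⊆ F := fun e he => hFr e (by simpa [hG] using he)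
      have hGne : G.Nonempty := by
        obtain ⟨e, he⟩ := hall
        exact ⟨e, by simp [hG, he]⟩
      obtain ⟨f, hf0, hfout, hfdiv⟩ := exists_circ s t G hGne (by
        intro v ⟨e, heG, hev⟩
        by_contra hlt
        push Not at hlt
        have hmem : e ∈ G.filter fun e => inc s t e v ≠ 0 := by
          rw [Finset.mem_filter]; exact ⟨heG, hev⟩
        have hone : (G.filter fun e => inc s t e v ≠ 0) = {e} := by
          apply Finset.eq_singleton_iff_unique_mem.2
          refine ⟨hmem, fun x hx => ?_⟩
          by_contra hne
          have : ({x, e} : Finset E) ⊆ G.filter fun e => inc s t e v ≠ 0 := by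
            intro w hw
            simp only [mem_insert, mem_singleton] at hw
            rcases hw with rfl | rfl
            · exact hx
            · exact hmem
          have := Finset.card_le_card this
          rw [Finset.card_pair hne] at this
          omega
        -- all other edges contribute integers
        have hint : ∀ x, x ≠ e → ∃ z : ℤ, y x * inc s t x v = z := by
          intro x hx
          by_cases hfx : Frac (y x)
          · have : inc s t x v = 0 := by
              by_contra hne
              have : x ∈ G.filter fun e => inc s t e v ≠ 0 := by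
                rw [Finset.mem_filter]; exact ⟨by simp [hG, hfx], hne⟩
              rw [hone, Finset.mem_singleton] at this
              exact hx this
            exact ⟨0, by simp [this]⟩
          · unfold Frac at hfx
            push Not at hfx
            obtain ⟨z, hz⟩ := hfx
            by_cases hi : inc s t x v = 0
            · exact ⟨0, by simp [hi]⟩
            · rcases inc_cases s t x v hi with h | h
              · exact ⟨z, by rw [h, hz]; ring⟩
              · exact ⟨-z, by rw [h, hz]; push_cast; ring⟩
        have hrest : ∃ z : ℤ, ∑ x ∈ univ.erase e, y x * inc s t x v = z := by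
          have : ∀ x, ∃ z : ℤ, x ≠ e → y x * inc s t x v = z := by
            intro x
            by_cases hx : x = e
            · exact ⟨0, fun h => absurd hx h⟩
            · obtain ⟨z, hz⟩ := hint x hx
              exact ⟨z, fun _ => hz⟩
          choose z hz using this
          refine ⟨∑ x ∈ univ.erase e, z x, ?_⟩
          push_cast
          exact Finset.sum_congr rfl fun x hx => hz x (Finset.ne_of_mem_erase hx)
        obtain ⟨z, hz⟩ := hrest
        have htot := hd v
        rw [← Finset.add_sum_erase _ _ (mem_univ e), hz] at htot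
        have hfe : Frac (y e) := by simpa [hG] using heG
        rcases inc_cases s t e v hev with h | h
        · rw [h] at htot
          exact hfe (d v - z) (by push_cast; linarith)
        · rw [h] at htot
          exact hfe (z - d v) (by push_cast; linarith))
      obtain ⟨τ, hτ, e1, he1, he1'⟩ := round_step y f hf0 (by
        intro e he
        exact hfout e (by simp [hG, he]))
      refine ih (fun e => y e + τ * f e) (fun e => ?_) (fun v => ?_) ?_
      · obtain ⟨h1, h2, h3⟩ := hτ e
        have ha : (a e : ℝ) ≤ ⌊y e⌋ := by
          exact_mod_cast Int.le_floor.2 (hy e).1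
        by_cases hfe : Frac (y e)
        · refine ⟨le_trans ha h1, le_trans (h2 hfe) ?_⟩
          have hlt : (⌊y e⌋ : ℝ) < b e := lt_of_lt_of_le (frac_floor hfe).1 (hy e).2
          have : ⌊y e⌋ + 1 ≤ b e := by exact_mod_cast hlt
          exact_mod_cast this
        · rw [h3 hfe]
          exact hy e
      · have : ∑ e, (y e + τ * f e) * inc s t e v
            = ∑ e, y e * inc s t e v + τ * ∑ e, f e * inc s t e v := by
          rw [Finset.mul_sum, ← Finset.sum_add_distrib]
          exact Finset.sum_congr rfl fun e _ => by ring
        rw [this, hfdiv v, hd v]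
        ring
      · refine ⟨G.erase e1, ?_, fun e he => ?_⟩
        · have h1 : e1 ∈ G := by simp [hG, he1]
          rw [Finset.card_erase_of_mem h1]
          have := Finset.card_le_card hGF
          omega
        · rw [Finset.mem_erase]
          refine ⟨fun h => ?_, ?_⟩
          · subst h
            exact he1' he
          · by_contra hno
            have hnf : ¬ Frac (y e) := by simpa [hG] using hno
            have := (hτ e).2.2 hnf
            change Frac (y e + τ * f e) at he
            rw [this] at he
            exact hnf he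

/-- Rounding: a real flow between integral bounds with integral divergence can be replaced by an
integral flow with the same divergence and the same bounds. -/
theorem exists_int_flow (s t : E → V) (a b : E → ℤ) (d : V → ℤ) (y : E → ℝ)
    (hy : ∀ e, (a e : ℝ) ≤ y e ∧ y e ≤ b e) (hd : ∀ v, ∑ e, y e * inc s t e v = d v) :
    ∃ z : E → ℤ, (∀ e, a e ≤ z e ∧ z e ≤ b e) ∧ ∀ v, ∑ e, (z e : ℝ) * inc s t e v = d v :=
  exists_round s t a b d (Fintype.card E) y hy hd ⟨univ, by simp, fun e _ => mem_univ e⟩

end Pool.Agent.Energy
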