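import Pool.Agent.Work.Energy.Ground
import Pool.Agent.Work.Energy.Round
import Pool.Agent.Work.MP_974d84_co_circ.M1
import Pool.Agent.Work.MP_974d84_co_circ.Theta

/-! # Every coset of divergences contains a small flow -/

set_option autoImplicit false

open Finset Matrix

namespace Pool.Agent.Energy

universe u w

variable {V : Type u} {E : Type w} [Fintype V] [DecidableEq V] [Fintype E] [DecidableEq E]

/-- net outflow -/
def net (s t : E → V) (f : E → ℝ) (v : V) : ℝ := ∑ e, f e * inc s t e v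

omit [Fintype V] [DecidableEq E] in
theorem net_eq_dv (s t : E → V) (f : E → ℝ) (v : V) : net s t f v = Circ.dv s t f v := by
  unfold net Circ.dv
  refine Finset.sum_congr rfl fun e _ => ?_
  rw [inc_apply]
  split_ifs <;> ring

omit [DecidableEq E] in
theorem prb_le {s t : E → V} {r : V} {c : E → ℝ} (hc : ∀ e, 0 < c e)
    (hM : (lap s t r c).PosDef) {x : ℝ} (hx : 0 ≤ x)
    (h : ∀ (y : V → ℝ) (e : E), c e * (y (s e) - y (t e)) ^ 2 ≤ x * Circ.Q s t c y) (e : E) :
    prb s t r c e ≤ x := by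
  set M := lap s t r c with hMdef
  set y := M⁻¹ *ᵥ inc s t e with hy
  have hMy : M *ᵥ y = inc s t e := mul_inv_mulVec hM _
  have hq : y ⬝ᵥ (M *ᵥ y) = (y r) ^ 2 + Circ.Q s t c y := by
    rw [hMdef, lap_quad]; rfl
  have hd : y ⬝ᵥ (M *ᵥ y) = y (s e) - y (t e) := by rw [hMy, dot_inc]
  have hp : prb s t r c e = c e * (y (s e) - y (t e)) := by
    unfold prb
    rw [← hMdef, ← hy, inc_dot]
  have h1 := h y e
  have h2 : Circ.Q s t c y ≤ y (s e) - y (t e) := by
    rw [← hd, hq]
    nlinarith [sq_nonneg (y r)]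
  have h3 : 0 ≤ Circ.Q s t c y :=
    Finset.sum_nonneg fun e _ => mul_nonneg (hc e).le (sq_nonneg _)
  rw [hp]
  set a := y (s e) - y (t e) with ha
  have ha0 : 0 ≤ a := le_trans h3 h2
  rcases ha0.eq_or_lt with h0 | h0
  · rw [← h0, mul_zero]; exact hx
  · have h4 : c e * a * a ≤ x * a := by
      calc c e * a * a = c e * a ^ 2 := by ring
        _ ≤ x * Circ.Q s t c y := h1
        _ ≤ x * a := mul_le_mul_of_nonneg_left h2 hx
    exact le_of_mul_le_mul_right h4 h0

/-- partitions crossed by many edges: connectedness -/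
theorem cut_nonempty_of_theta {s t : E → V} {θ : ℝ}
    (hθ : ∀ p : V → ℕ, ((univ.image p).card : ℝ) - 1 ≤
      θ * ((univ.filter (fun e => p (s e) ≠ p (t e))).card : ℝ))
    (S : Finset V) (hS : S.Nonempty) (hSu : S ≠ univ) : (cut s t S).Nonempty := by
  classical
  have h := hθ (fun v => if v ∈ S then 1 else 0)
  obtain ⟨a, ha⟩ := hS
  obtain ⟨b, hb⟩ : ∃ b, b ∉ S := by
    by_contra hcon
    push Not at hcon
    exact hSu (Finset.eq_univ_of_forall hcon)
  have himg : 2 ≤ (univ.image (fun v : V => if v ∈ S then 1 else 0)).card := by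
    have : ({0, 1} : Finset ℕ) ⊆ univ.image (fun v : V => if v ∈ S then 1 else 0) := by
      intro j hj
      simp only [mem_insert, mem_singleton] at hj
      rcases hj with rfl | rfl
      · exact mem_image.2 ⟨b, mem_univ _, by simp [hb]⟩
      · exact mem_image.2 ⟨a, mem_univ _, by simp [ha]⟩
    calc 2 = ({0, 1} : Finset ℕ).card := by simp
      _ ≤ _ := Finset.card_le_card this
  by_contra hno
  rw [Finset.not_nonempty_iff_eq_empty] at hno
  have hempty : (univ.filter (fun e => (fun v => if v ∈ S then 1 else 0) (s e)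
      ≠ (fun v => if v ∈ S then (1 : ℕ) else 0) (t e))) = ∅ := by
    rw [Finset.filter_eq_empty_iff]
    intro e _ hne
    have : e ∈ cut s t S := by
      simp only [cut, mem_filter, mem_univ, true_and]
      by_cases h1 : s e ∈ S <;> by_cases h2 : t e ∈ S <;> simp_all
    rw [hno] at this
    exact absurd this (Finset.notMem_empty e)
  rw [hempty] at h
  have h2 : (2 : ℝ) ≤ ((univ.image (fun v : V => if v ∈ S then 1 else 0)).card : ℝ) := by
    exact_mod_cast himg
  simp only [Finset.card_empty, Nat.cast_zero, mul_zero] at h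
  linarith

theorem coset_approx [Nonempty V] (s t : E → V) (θ : ℝ) (hθ0 : 0 ≤ θ)
    (hθ : ∀ p : V → ℕ, ((univ.image p).card : ℝ) - 1 ≤
      θ * ((univ.filter (fun e => p (s e) ≠ p (t e))).card : ℝ))
    {q : ℕ} (hq : 0 < q) (x0 : V → ℤ) (h0 : (q : ℤ) ∣ ∑ v, x0 v) (x : ℝ) (hx : θ < x) :
    ∃ z : E → ℝ, (∀ e, |z e| ≤ q / 2 * x) ∧ ∀ v, ∃ k : ℤ, net s t z v = x0 v + q * k := by
  obtain ⟨r⟩ := ‹Nonempty V›
  obtain ⟨j, hj⟩ := h0
  obtain ⟨c, hc, hcx⟩ := Circ.exists_weights_theta s t θ hθ x hx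
  have hM : (lap s t r c).PosDef := lap_posDef r hc (cut_nonempty_of_theta hθ)
  have hx0 : 0 ≤ x := hθ0.trans hx.le
  obtain ⟨y, i, hy1, hy2, hi, hdiv⟩ := exists_current hc hM hq
    (fun v => x0 v - (Pi.single r ((q : ℤ) * j) : V → ℤ) v)
    (by rw [Finset.sum_sub_distrib, hj]; simp)
  refine ⟨i, fun e => ?_, fun v => ?_⟩
  · refine (hi e).trans ?_
    exact mul_le_mul_of_nonneg_left (prb_le hc hM hx0 hcx e) (by positivity)
  · obtain ⟨k, hk⟩ := hy1 v
    have hd := hdiv v
    by_cases hv : v = r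
    · refine ⟨k - j, ?_⟩
      have h1 : (y v : ℝ) = x0 v + q * (k - j) := by
        have : y v = x0 v + q * (k - j) := by
          subst hv
          simp only [Pi.single_eq_same] at hk
          linarith
        rw [this]; push_cast; ring
      unfold net
      rw [hd, h1]
      push_cast
      ring
    · refine ⟨k, ?_⟩
      have h1 : (y v : ℝ) = x0 v + q * k := by
        have : y v = x0 v + q * k := by
          simp only [Pi.single_apply, if_neg hv] at hk
          linarith
        rw [this]; push_cast; ring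
      unfold net
      rw [hd, h1]

omit [Fintype V] [DecidableEq E] in
theorem continuous_net (s t : E → V) (v : V) : Continuous fun f : E → ℝ => net s t f v := by
  unfold net
  fun_prop

omit [Fintype V] [DecidableEq E] in
theorem isClosed_coset (s t : E → V) {q : ℕ} (hq : 0 < q) (x0 : V → ℤ) :
    IsClosed {z : E → ℝ | ∀ v, ∃ k : ℤ, net s t z v = x0 v + q * k} := by
  have hq' : (q : ℝ) ≠ 0 := by exact_mod_cast hq.ne'
  have h : {z : E → ℝ | ∀ v, ∃ k : ℤ, net s t z v = x0 v + q * k}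
      = ⋂ v, (fun z : E → ℝ => (net s t z v - x0 v) / q) ⁻¹' (Set.range ((↑) : ℤ → ℝ)) := by
    ext z
    simp only [Set.mem_setOf_eq, Set.mem_iInter, Set.mem_preimage, Set.mem_range]
    refine forall_congr' fun v => exists_congr fun k => ?_
    constructor
    · intro h
      rw [h]
      field_simp
      ring
    · intro h
      rw [h]
      field_simp
      ring
  rw [h]
  refine isClosed_iInter fun v => IsClosed.preimage ?_ Int.isClosedEmbedding_coe_real.isClosed_range
  exact ((continuous_net s t v).sub continuous_const).div_const _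

/-- MASTER THEOREM: if every partition with `n` classes is crossed by at least `(n-1)/θ` edges then
every admissible coset modulo `q` contains the divergence of a flow with `|z| ≤ q θ / 2`. -/
theorem coset (s t : E → V) (θ : ℝ) (hθ0 : 0 ≤ θ)
    (hθ : ∀ p : V → ℕ, ((univ.image p).card : ℝ) - 1 ≤
      θ * ((univ.filter (fun e => p (s e) ≠ p (t e))).card : ℝ))
    {q : ℕ} (hq : 0 < q) (x0 : V → ℤ) (h0 : (q : ℤ) ∣ ∑ v, x0 v) :
    ∃ z : E → ℝ, (∀ e, |z e| ≤ q / 2 * θ) ∧ ∀ v, ∃ k : ℤ, net s t z v = x0 v + q * k := by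
  rcases isEmpty_or_nonempty V with hV | hV
  · exact ⟨fun _ => 0, fun e => (hV.false (s e)).elim, fun v => (hV.false v).elim⟩
  set C : Set (E → ℝ) := {z : E → ℝ | ∀ v, ∃ k : ℤ, net s t z v = x0 v + q * k} with hC
  have hCc : IsClosed C := isClosed_coset s t hq x0
  have hqp : (0 : ℝ) < q / 2 := by
    have : (0 : ℝ) < q := by exact_mod_cast hq
    positivity
  have hex : ∀ x, θ < x → ∃ z ∈ C, ‖z‖ ≤ q / 2 * x := by
    intro x hx
    obtain ⟨z, hz, hzC⟩ := coset_approx s t θ hθ0 hθ hq x0 h0 x hx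
    refine ⟨z, hzC, ?_⟩
    rw [pi_norm_le_iff_of_nonneg (mul_nonneg hqp.le (hθ0.trans hx.le))]
    intro e
    rw [Real.norm_eq_abs]
    exact hz e
  set K : Set (E → ℝ) := C ∩ Metric.closedBall 0 (q / 2 * (θ + 1)) with hK
  have hKc : IsCompact K := (isCompact_closedBall _ _).inter_left hCc
  obtain ⟨z1, hz1C, hz1⟩ := hex (θ + 1) (by linarith)
  have hz1K : z1 ∈ K := ⟨hz1C, by rwa [mem_closedBall_zero_iff]⟩
  obtain ⟨z, hzK, hmin⟩ := hKc.exists_isMinOn ⟨z1, hz1K⟩ continuous_norm.continuousOn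
  have hle : ∀ x, θ < x → x ≤ θ + 1 → ‖z‖ ≤ q / 2 * x := by
    intro x hx hx1
    obtain ⟨y, hyC, hy⟩ := hex x hx
    have hyK : y ∈ K := ⟨hyC, by
      rw [mem_closedBall_zero_iff]
      exact hy.trans (mul_le_mul_of_nonneg_left hx1 hqp.le)⟩
    exact (hmin hyK).trans hy
  have hfin : ‖z‖ ≤ q / 2 * θ := by
    by_contra hlt
    push Not at hlt
    set δ : ℝ := min 1 ((‖z‖ - q / 2 * θ) / (q / 2) / 2) with hδ
    have hpos : 0 < (‖z‖ - q / 2 * θ) / (q / 2) / 2 := by
      apply div_pos (div_pos (by linarith) hqp) two_pos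
    have hδ0 : 0 < δ := lt_min one_pos hpos
    have h1 := hle (θ + δ) (by linarith) (by
      have : δ ≤ 1 := min_le_left _ _
      linarith)
    have h2 : q / 2 * δ ≤ (‖z‖ - q / 2 * θ) / 2 := by
      calc q / 2 * δ ≤ q / 2 * ((‖z‖ - q / 2 * θ) / (q / 2) / 2) :=
            mul_le_mul_of_nonneg_left (min_le_right _ _) hqp.le
        _ = (‖z‖ - q / 2 * θ) / 2 := by field_simp
    have h3 : (q : ℝ) / 2 * (θ + δ) = q / 2 * θ + q / 2 * δ := by ring
    rw [h3] at h1
    linarith
  refine ⟨z, fun e => ?_, hzK.1⟩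
  have := norm_le_pi_norm z e
  rw [Real.norm_eq_abs] at this
  exact this.trans hfin

end Pool.Agent.Energy
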