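import Pool.Agent.Work.Energy.ModFlows
import Pool.Agent.Work.MP_974d84_co_circ.Bridgeless
import Pool.Agent.Work.MP_974d84_co_circ.Theta

/-!
# Special cases of modular flows between bounds

Everything here is deduced from `flows_form` alone (and elementary partition counting): `Z_k`
connectivity and nowhere-zero `k`-flows, circular flows, modulo `2m` orientations, and the bound
`6n/(n+2)` for bridgeless graphs.
-/

set_option autoImplicit false

open Finset

namespace Pool.Agent.Energy.MF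

universe u w

variable {V : Type u} {E : Type w} [Fintype V] [DecidableEq V] [Fintype E]

/-- The partition condition for constant bounds. -/
theorem cond_const (s t : E → V) {q a b : ℝ} (hq : 0 ≤ q) (hab : a ≤ b) {τ : ℝ}
    (hτ : ∀ p : V → ℕ, τ * (((univ.image p).card : ℝ) - 1) ≤
      ((univ.filter (fun e => p (s e) ≠ p (t e))).card : ℝ)) (hqτ : q ≤ (b - a) * τ)
    (p : V → ℕ) : q * (((univ.image p).card : ℝ) - 1) ≤
      ∑ e ∈ univ.filter (fun e => p (s e) ≠ p (t e)), (b - a) := by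
  rw [sum_const, nsmul_eq_mul]
  have hc : (0 : ℝ) ≤ ((univ.filter (fun e => p (s e) ≠ p (t e))).card : ℝ) := Nat.cast_nonneg _
  by_cases hp : (0 : ℝ) ≤ ((univ.image p).card : ℝ) - 1
  · calc q * (((univ.image p).card : ℝ) - 1)
        ≤ ((b - a) * τ) * (((univ.image p).card : ℝ) - 1) := mul_le_mul_of_nonneg_right hqτ hp
      _ = (b - a) * (τ * (((univ.image p).card : ℝ) - 1)) := by ring
      _ ≤ (b - a) * ((univ.filter (fun e => p (s e) ≠ p (t e))).card : ℝ) :=
          mul_le_mul_of_nonneg_left (hτ p) (by linarith)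
      _ = _ := by ring
  · push Not at hp
    have h4 : q * (((univ.image p).card : ℝ) - 1) ≤ 0 :=
      mul_nonpos_of_nonneg_of_nonpos hq hp.le
    have h5 := mul_nonneg hc (by linarith : (0 : ℝ) ≤ b - a)
    linarith

/-- `Z_k`-connectivity. -/
theorem group_conn (s t : E → V) {τ : ℝ}
    (hs : ∀ p : V → ℕ, τ * (((univ.image p).card : ℝ) - 1) ≤
      ((univ.filter (fun e => p (s e) ≠ p (t e))).card : ℝ)) {k : ℕ} (hk : 2 ≤ k)
    (hkτ : (k : ℝ) ≤ (k - 2) * τ) (β : V → ℤ) (hβ : (k : ℤ) ∣ ∑ v, β v) :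
    ∃ f : E → ℤ, (∀ e, 1 ≤ f e ∧ f e ≤ k - 1) ∧
      ∀ v, (k : ℤ) ∣
        ((∑ e, if s e = v then f e else 0) - ∑ e, if t e = v then f e else 0) - β v := by
  classical
  have hk2 : (2 : ℝ) ≤ k := by exact_mod_cast hk
  obtain ⟨j, hj⟩ := hβ
  obtain ⟨f, hf1, hf2, hf3, -⟩ := flows_form s t (q := (k : ℝ)) (by linarith) (fun _ => 1)
    (fun _ => (k : ℝ) - 1) (fun _ => by linarith)
    (cond_const s t (by linarith) (by linarith) hs (by
      have : (k : ℝ) - 1 - 1 = k - 2 := by ring
      rw [this]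
      exact hkτ)) (fun v => (β v : ℝ)) ⟨j, by
        have : ((∑ v, β v : ℤ) : ℝ) = ((k * j : ℤ) : ℝ) := by rw [hj]
        push_cast at this
        exact this⟩
  have hint := hf3 ⟨k, by simp⟩ (fun _ => ⟨⟨1, by simp⟩, ⟨(k : ℤ) - 1, by push_cast; rfl⟩⟩)
    (fun v => ⟨β v, rfl⟩)
  choose F hF using hint
  refine ⟨F, fun e => ?_, fun v => ?_⟩
  · have h := hf1 e
    rw [hF e] at h
    constructor
    · exact_mod_cast h.1
    · have h2 : (F e : ℝ) ≤ ((k - 1 : ℤ) : ℝ) := by
        push_cast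
        exact h.2
      exact_mod_cast h2
  · obtain ⟨i, hi⟩ := hf2 v
    refine ⟨i, ?_⟩
    simp only [hF] at hi
    have h3 : (((∑ e, if s e = v then F e else 0) - (∑ e, if t e = v then F e else 0) - β v : ℤ)
        : ℝ) = ((k * i : ℤ) : ℝ) := by
      push_cast
      linarith
    exact_mod_cast h3

/-- Circular flow numbers. -/
theorem circ_flow (s t : E → V) {r : ℝ} (hr : 2 ≤ r)
    (h : ∀ p : V → ℕ, r * (((univ.image p).card : ℝ) - 1) ≤
      (r - 2) * ((univ.filter (fun e => p (s e) ≠ p (t e))).card : ℝ)) :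
    ∃ f : E → ℝ,
      (∀ v, (∑ e, if s e = v then f e else 0) = ∑ e, if t e = v then f e else 0) ∧
      (∀ e, 1 ≤ |f e| ∧ |f e| ≤ r - 1) ∧ ((∃ a : ℤ, r = a) → ∀ e, ∃ a : ℤ, f e = a) := by
  classical
  obtain ⟨f, hf1, -, hf3, hf4⟩ := flows_form s t (q := r) (by linarith) (fun _ => 1)
    (fun _ => r - 1) (fun _ => by linarith)
    (fun p => by
      rw [sum_const, nsmul_eq_mul]
      calc _ ≤ _ := h p
        _ = _ := by ring) (fun _ => 0) ⟨0, by simp⟩
  obtain ⟨g, hg1, hg2⟩ := hf4 (by simp) (fun Z => by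
    simp only [sum_const_zero, abs_zero]
    have : (0 : ℝ) ≤ ∑ e ∈ univ.filter (fun e => ¬ (s e ∈ Z ↔ t e ∈ Z)), min 1 (r - (r - 1)) :=
      sum_nonneg fun e _ => le_min (by norm_num) (by linarith)
    linarith)
  refine ⟨g, fun v => ?_, fun e => ?_, fun hr' e => ?_⟩
  · have := hg2 v
    linarith
  · have h1 := hf1 e
    rcases hg1 e with h2 | h2
    · rw [h2, abs_of_nonneg (by linarith)]
      exact h1
    · rw [h2, abs_of_nonpos (by linarith)]
      constructor <;> linarith
  · obtain ⟨R, hR⟩ := hr'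
    obtain ⟨a, ha⟩ := hf3 ⟨R, hR⟩ (fun _ => ⟨⟨1, by simp⟩, ⟨R - 1, by rw [hR]; push_cast; rfl⟩⟩)
      (fun v => ⟨0, by simp⟩) e
    rcases hg1 e with h2 | h2
    · exact ⟨a, by rw [h2, ha]⟩
    · exact ⟨a - R, by rw [h2, ha, hR]; push_cast; rfl⟩

/-- Modulo `2 m` orientations. -/
theorem mod_orient (s t : E → V) {m : ℕ} (hm : 0 < m)
    (hs : ∀ p : V → ℕ, (m : ℝ) * (((univ.image p).card : ℝ) - 1) ≤
      ((univ.filter (fun e => p (s e) ≠ p (t e))).card : ℝ)) (x₀ : V → ℤ)
    (hpar : ∀ v, (2 : ℤ) ∣ x₀ v -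
      ((univ.filter (fun e => s e = v)).card + (univ.filter (fun e => t e = v)).card))
    (hx₀ : (2 * m : ℤ) ∣ ∑ v, x₀ v) :
    ∃ σ : E → ℤ, (∀ e, σ e = 1 ∨ σ e = -1) ∧
      ∀ v, (2 * m : ℤ) ∣
        ((∑ e, if s e = v then σ e else 0) - ∑ e, if t e = v then σ e else 0) - x₀ v := by
  classical
  have hmR : (0 : ℝ) < m := by exact_mod_cast hm
  choose h hh using hpar
  -- `β v = (x₀ v + net 1 v) / 2`
  set b : V → ℤ := fun v => h v + (univ.filter (fun e => s e = v)).card with hb
  have hsum : ∑ v, (((univ.filter (fun e => s e = v)).card : ℤ) -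
      (univ.filter (fun e => t e = v)).card) = 0 := by
    rw [sum_sub_distrib]
    have h1 : ∑ v, ((univ.filter (fun e => s e = v)).card : ℤ) = Fintype.card E := by
      have := card_eq_sum_card_fiberwise (f := s) (s := (univ : Finset E)) (t := univ)
        (fun _ _ => mem_univ _)
      rw [card_univ] at this
      rw [this]
      push_cast
      rfl
    have h2 : ∑ v, ((univ.filter (fun e => t e = v)).card : ℤ) = Fintype.card E := by
      have := card_eq_sum_card_fiberwise (f := t) (s := (univ : Finset E)) (t := univ)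
        (fun _ _ => mem_univ _)
      rw [card_univ] at this
      rw [this]
      push_cast
      rfl
    rw [h1, h2, sub_self]
  have h2b : ∀ v, 2 * b v = x₀ v + (((univ.filter (fun e => s e = v)).card : ℤ) -
      (univ.filter (fun e => t e = v)).card) := by
    intro v
    have := hh v
    simp only [hb]
    linarith
  obtain ⟨j, hj⟩ := hx₀
  have hbs : ∑ v, b v = m * j := by
    have h1 : 2 * ∑ v, b v = 2 * m * j := by
      rw [mul_sum]
      simp only [h2b]
      rw [sum_add_distrib, hsum, hj, add_zero]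
    have h3 : 2 * ∑ v, b v = 2 * (m * j) := by rw [h1]; ring
    exact mul_left_cancel₀ (by norm_num) h3
  obtain ⟨f, hf1, hf2, hf3, -⟩ := flows_form s t (q := (m : ℝ)) hmR (fun _ => 0)
    (fun _ => 1) (fun _ => by norm_num) (fun p => by
      rw [sum_const, nsmul_eq_mul]
      have := hs p
      linarith) (fun v => (b v : ℝ)) ⟨j, by
        have : ((∑ v, b v : ℤ) : ℝ) = ((m * j : ℤ) : ℝ) := by rw [hbs]
        push_cast at this
        exact this⟩
  have hint := hf3 ⟨m, by simp⟩ (fun _ => ⟨⟨0, by simp⟩, ⟨1, by simp⟩⟩) (fun v => ⟨b v, rfl⟩)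
  choose F hF using hint
  have hF01 : ∀ e, F e = 0 ∨ F e = 1 := by
    intro e
    have h := hf1 e
    rw [hF e] at h
    have h1 : 0 ≤ F e := by exact_mod_cast h.1
    have h2 : F e ≤ 1 := by exact_mod_cast h.2
    omega
  refine ⟨fun e => 2 * F e - 1, fun e => ?_, fun v => ?_⟩
  · rcases hF01 e with h | h <;> simp [h]
  · obtain ⟨i, hi⟩ := hf2 v
    refine ⟨i, ?_⟩
    simp only [hF] at hi
    have h3 : (∑ e, if s e = v then F e else 0) - (∑ e, if t e = v then F e else 0) =
        b v + m * i := by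
      have h4 : (((∑ e, if s e = v then F e else 0) - (∑ e, if t e = v then F e else 0) : ℤ) : ℝ)
          = ((b v + m * i : ℤ) : ℝ) := by
        push_cast
        exact hi
      exact_mod_cast h4
    have h5 : ∀ w : E → V, (∑ e, if w e = v then 2 * F e - 1 else 0) =
        2 * (∑ e, if w e = v then F e else 0) - ((univ.filter (fun e => w e = v)).card : ℤ) := by
      intro w
      rw [card_filter]
      push_cast
      rw [mul_sum, ← sum_sub_distrib]
      refine sum_congr rfl fun e _ => ?_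
      split_ifs <;> ring
    rw [h5 s, h5 t]
    have h6 := h2b v
    linarith

/-- The theorem `ModularOrientations` of the earlier hand-in. -/
theorem old_form (s t : E → V) :
    (∀ τ : ℝ, 0 < τ →
      (∀ p : V → ℕ, τ * (((univ.image p).card : ℝ) - 1) ≤
        ((univ.filter (fun e => p (s e) ≠ p (t e))).card : ℝ)) →
      (∀ k : ℕ, 0 < k → (k : ℝ) ≤ (k - 2) * τ →
        ∀ β : V → ℤ, (k : ℤ) ∣ ∑ v, β v →
          ∃ f : E → ℤ, (∀ e, 1 ≤ f e ∧ f e ≤ k - 1) ∧
            ∀ v, (k : ℤ) ∣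
              ((∑ e, if s e = v then f e else 0) - ∑ e, if t e = v then f e else 0) - β v) ∧
      (∀ k : ℕ, 0 < k → (k : ℝ) ≤ (k - 2) * τ →
        ∃ f : E → ℤ,
          (∀ v, (∑ e, if s e = v then f e else 0) = ∑ e, if t e = v then f e else 0) ∧
          ∀ e, 1 ≤ |f e| ∧ |f e| ≤ k - 1) ∧
      (∀ m : ℕ, 0 < m → (m : ℝ) ≤ τ →
        ∀ x₀ : V → ℤ,
          (∀ v, (2 : ℤ) ∣ x₀ v -
            ((univ.filter (fun e => s e = v)).card + (univ.filter (fun e => t e = v)).card)) →
          (2 * m : ℤ) ∣ ∑ v, x₀ v →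
          ∃ σ : E → ℤ, (∀ e, σ e = 1 ∨ σ e = -1) ∧
            ∀ v, (2 * m : ℤ) ∣
              ((∑ e, if s e = v then σ e else 0) - ∑ e, if t e = v then σ e else 0) - x₀ v)) ∧
    (∀ m : ℕ, 0 < m →
      (∀ X : Finset V, X.Nonempty → X ≠ univ →
        2 * m ≤ (univ.filter (fun e => ¬ (s e ∈ X ↔ t e ∈ X))).card) →
      ∀ x₀ : V → ℤ,
        (∀ v, (2 : ℤ) ∣ x₀ v -
          ((univ.filter (fun e => s e = v)).card + (univ.filter (fun e => t e = v)).card)) →
        (2 * m : ℤ) ∣ ∑ v, x₀ v →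
        ∃ σ : E → ℤ, (∀ e, σ e = 1 ∨ σ e = -1) ∧
          ∀ v, (2 * m : ℤ) ∣
            ((∑ e, if s e = v then σ e else 0) - ∑ e, if t e = v then σ e else 0) - x₀ v) := by
  classical
  refine ⟨fun τ hτ hs => ?_, fun m hm hcut x₀ hpar hx₀ => ?_⟩
  · have hk2 : ∀ k : ℕ, 0 < k → (k : ℝ) ≤ (k - 2) * τ → 2 ≤ k := by
      intro k hk hkτ
      by_contra hlt
      push Not at hlt
      have h1 : (k : ℝ) ≤ 1 := by exact_mod_cast (by omega : k ≤ 1)
      have h2 : (0 : ℝ) < k := by exact_mod_cast hk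
      have h3 : ((k : ℝ) - 2) * τ ≤ 0 := mul_nonpos_of_nonpos_of_nonneg (by linarith) hτ.le
      linarith
    refine ⟨fun k hk hkτ β hβ => group_conn s t hs (hk2 k hk hkτ) hkτ β hβ,
      fun k hk hkτ => ?_, fun m hm hmτ x₀ hpar hx₀ => ?_⟩
    · have hk2' : (2 : ℝ) ≤ k := by exact_mod_cast hk2 k hk hkτ
      obtain ⟨f, hf1, hf2, hf3⟩ := circ_flow s t (r := (k : ℝ)) hk2' (fun p => by
        have := cond_const s t (q := (k : ℝ)) (a := 1) (b := (k : ℝ) - 1) (by linarith)
          (by linarith) hs (by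
            have : (k : ℝ) - 1 - 1 = k - 2 := by ring
            rw [this]
            exact hkτ) p
        rw [sum_const, nsmul_eq_mul] at this
        calc _ ≤ _ := this
          _ = _ := by ring)
      choose F hF using hf3 ⟨k, by simp⟩
      refine ⟨F, fun v => ?_, fun e => ?_⟩
      · have h := hf1 v
        simp only [hF] at h
        exact_mod_cast h
      · have h := hf2 e
        rw [hF e] at h
        constructor
        · exact_mod_cast h.1
        · have h2 : ((|F e| : ℤ) : ℝ) ≤ ((k - 1 : ℤ) : ℝ) := by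
            push_cast
            exact h.2
          exact_mod_cast h2
    · refine mod_orient s t hm (fun p => ?_) x₀ hpar hx₀
      have h1 := hs p
      have hc : (0 : ℝ) ≤ ((univ.filter (fun e => p (s e) ≠ p (t e))).card : ℝ) :=
        Nat.cast_nonneg _
      by_cases hp : (0 : ℝ) ≤ ((univ.image p).card : ℝ) - 1
      · exact (mul_le_mul_of_nonneg_right hmτ hp).trans h1
      · push Not at hp
        have h4 : (m : ℝ) * (((univ.image p).card : ℝ) - 1) ≤ 0 :=
          mul_nonpos_of_nonneg_of_nonpos (Nat.cast_nonneg _) hp.le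
        linarith
  · refine mod_orient s t hm (fun p => ?_) x₀ hpar hx₀
    have hmR : (0 : ℝ) < m := by exact_mod_cast hm
    have h := Circ.theta_of_cut s t (2 * m) (by omega) hcut p
    have hc : (0 : ℝ) ≤ ((univ.filter (fun e => p (s e) ≠ p (t e))).card : ℝ) := Nat.cast_nonneg _
    have h1 : (2 : ℝ) / ((2 * m : ℕ) : ℝ) = 1 / m := by
      push_cast
      field_simp
    rw [h1] at h
    have h2 : (1 : ℝ) - 1 / (Fintype.card V : ℝ) ≤ 1 := by
      have : (0 : ℝ) ≤ 1 / (Fintype.card V : ℝ) := by positivity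
      linarith
    have h3 : 1 / (m : ℝ) * (1 - 1 / (Fintype.card V : ℝ)) *
        ((univ.filter (fun e => p (s e) ≠ p (t e))).card : ℝ) ≤
        1 / (m : ℝ) * ((univ.filter (fun e => p (s e) ≠ p (t e))).card : ℝ) := by
      refine mul_le_mul_of_nonneg_right ?_ hc
      calc 1 / (m : ℝ) * (1 - 1 / (Fintype.card V : ℝ)) ≤ 1 / (m : ℝ) * 1 :=
            mul_le_mul_of_nonneg_left h2 (by positivity)
        _ = 1 / (m : ℝ) := mul_one _
    have h4 := h.trans h3
    rw [one_div, inv_mul_eq_div, le_div_iff₀ hmR] at h4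
    linarith

/-- `k`-edge-connected multigraphs, from `flows_form`. -/
theorem main_form : Circ.MainStatement.{u, w} := by
  intro V E _ _ _ _ s t k hk hn hcut
  have hkR : (2:ℝ) ≤ k := by exact_mod_cast hk
  have hnR : (2:ℝ) ≤ Fintype.card V := by exact_mod_cast hn
  have h2 : (0:ℝ) < 1 / Fintype.card V := by positivity
  have h3 : (2:ℝ) / k ≤ 1 := by rw [div_le_one (by linarith)]; exact hkR
  have h4 : (0:ℝ) < 2 / k := by positivity
  have h1 : (1:ℝ) / Fintype.card V ≤ 1 / 2 := by
    apply one_div_le_one_div_of_le (by norm_num) hnR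
  set θ : ℝ := 2 / k * (1 - 1 / Fintype.card V) with hθ
  have hθ0 : 0 ≤ θ := mul_nonneg h4.le (by linarith)
  have hθ1 : θ < 1 := by
    calc θ ≤ 1 * (1 - 1 / Fintype.card V) := mul_le_mul_of_nonneg_right h3 (by linarith)
      _ < 1 := by linarith
  have hd : 0 < 1 - θ := by linarith
  obtain ⟨f, hf1, hf2, -⟩ := circ_flow s t (r := 2 / (1 - θ)) (by
      rw [le_div_iff₀ hd]
      linarith) (fun p => by
      have h := Circ.theta_of_cut s t k (by omega) hcut p
      have h5 : 2 / (1 - θ) - 2 = 2 / (1 - θ) * θ := by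
        field_simp
        ring
      rw [h5, mul_assoc]
      exact mul_le_mul_of_nonneg_left h (by positivity))
  refine ⟨fun e => (1 - θ) * f e, fun v => ?_, fun e => ?_⟩
  · unfold Circ.dv
    have h := hf1 v
    have h5 : ∀ w : E → V, (∑ e, if w e = v then (1 - θ) * f e else 0) =
        (1 - θ) * ∑ e, if w e = v then f e else 0 := by
      intro w
      rw [mul_sum]
      refine sum_congr rfl fun e _ => ?_
      split_ifs <;> ring
    rw [sum_sub_distrib, h5 s, h5 t, h, sub_self]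
  · have h := hf2 e
    rw [abs_mul, abs_of_pos hd]
    constructor
    · have := mul_le_mul_of_nonneg_left h.1 hd.le
      linarith
    · have h6 := mul_le_mul_of_nonneg_left h.2 hd.le
      have h7 : (1 - θ) * (2 / (1 - θ) - 1) = 1 + θ := by
        field_simp
        ring
      linarith

/-- Bridgeless multigraphs, from `flows_form` and the reduction to 3-edge-connected ones. -/
theorem bridgeless_form [Nonempty V] (s t : E → V)
    (hb : ∀ X : Finset V, (univ.filter (fun e => ¬ (s e ∈ X ↔ t e ∈ X))).card ≠ 1) :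
    ∃ f : E → ℝ,
      (∀ v, (∑ e, if s e = v then f e else 0) = ∑ e, if t e = v then f e else 0) ∧
      ∀ e, 1 ≤ |f e| ∧ |f e| ≤ 5 - 12 / ((Fintype.card V : ℝ) + 2) := by
  classical
  obtain ⟨f, hf, hb⟩ := Circ.bridgeless_of_main main_form s t hb
  refine ⟨f, fun v => ?_, hb⟩
  have h := hf v
  unfold Circ.dv at h
  rw [sum_sub_distrib] at h
  linarith

end Pool.Agent.Energy.MF
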