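import Mathlib

/-! # Energy method: weighted Laplacians of multigraphs

A multigraph is given by two maps `s t : E → V`.  `cut s t S` is the set of edges with exactly one
end in `S`; `inc s t e` is the incidence vector of `e`; `lap s t r c` is the Laplacian with
conductances `c`, grounded at `r` by a unit conductance. -/

set_option autoImplicit false

open Finset Matrix

namespace Pool.Agent.Energy

variable {V E : Type*} [Fintype V] [DecidableEq V] [Fintype E] [DecidableEq E]

/-- edges leaving `S` -/
def cut (s t : E → V) (S : Finset V) : Finset E :=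
  univ.filter fun e => (s e ∈ S ∧ t e ∉ S) ∨ (s e ∉ S ∧ t e ∈ S)

/-- incidence vector of the edge `e` -/
def inc (s t : E → V) (e : E) : V → ℝ := Pi.single (s e) 1 - Pi.single (t e) 1

/-- weighted Laplacian, grounded at `r` by a unit conductance -/
noncomputable def lap (s t : E → V) (r : V) (c : E → ℝ) : Matrix V V ℝ :=
  vecMulVec (Pi.single r 1) (Pi.single r 1) + ∑ e, c e • vecMulVec (inc s t e) (inc s t e)

omit [Fintype E] [DecidableEq E] in
theorem inc_dot (s t : E → V) (e : E) (x : V → ℝ) : inc s t e ⬝ᵥ x = x (s e) - x (t e) := by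
  simp [inc, sub_dotProduct]

omit [Fintype E] [DecidableEq E] in
theorem dot_inc (s t : E → V) (e : E) (x : V → ℝ) : x ⬝ᵥ inc s t e = x (s e) - x (t e) := by
  rw [dotProduct_comm, inc_dot]

omit [DecidableEq V] in
theorem vecMulVec_mulVec' (a b x : V → ℝ) : vecMulVec a b *ᵥ x = (b ⬝ᵥ x) • a := by
  ext i
  simp [mulVec, vecMulVec, dotProduct, Finset.mul_sum, Finset.sum_mul]
  refine Finset.sum_congr rfl fun j _ => ?_
  ring

omit [DecidableEq E] in
theorem lap_mulVec (s t : E → V) (r : V) (c : E → ℝ) (x : V → ℝ) :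
    lap s t r c *ᵥ x
      = (x r) • (Pi.single r 1 : V → ℝ) + ∑ e, (c e * (x (s e) - x (t e))) • inc s t e := by
  have h : (∑ e, c e • vecMulVec (inc s t e) (inc s t e)) *ᵥ x
      = ∑ e, (c e * (x (s e) - x (t e))) • inc s t e := by
    rw [Matrix.sum_mulVec]
    refine Finset.sum_congr rfl fun e _ => ?_
    rw [Matrix.smul_mulVec, vecMulVec_mulVec', inc_dot, smul_smul]
  rw [lap, Matrix.add_mulVec, h, vecMulVec_mulVec']
  simp

omit [DecidableEq E] in
theorem lap_quad (s t : E → V) (r : V) (c : E → ℝ) (x : V → ℝ) :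
    x ⬝ᵥ (lap s t r c *ᵥ x) = (x r) ^ 2 + ∑ e, c e * (x (s e) - x (t e)) ^ 2 := by
  rw [lap_mulVec, dotProduct_add, dotProduct_smul, dotProduct_sum]
  congr 1
  · simp [sq]
  · refine Finset.sum_congr rfl fun e _ => ?_
    rw [dotProduct_smul, dot_inc]
    simp only [smul_eq_mul]
    ring

omit [Fintype V] [DecidableEq E] in
theorem lap_symm (s t : E → V) (r : V) (c : E → ℝ) : (lap s t r c)ᵀ = lap s t r c := by
  ext i j
  simp [lap, Matrix.transpose_apply, Matrix.sum_apply, vecMulVec, mul_comm]

omit [Fintype V] [DecidableEq E] in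
theorem lap_herm (s t : E → V) (r : V) (c : E → ℝ) : (lap s t r c).IsHermitian := by
  unfold Matrix.IsHermitian
  rw [Matrix.conjTranspose_eq_transpose_of_trivial, lap_symm]

omit [DecidableEq E] in
theorem lap_posDef {s t : E → V} (r : V) {c : E → ℝ} (hc : ∀ e, 0 < c e)
    (hcon : ∀ S : Finset V, S.Nonempty → S ≠ univ → (cut s t S).Nonempty) :
    (lap s t r c).PosDef := by
  classical
  refine Matrix.PosDef.of_dotProduct_mulVec_pos (lap_herm s t r c) ?_
  intro x hx
  have hstar : star x = x := by ext i; simp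
  rw [hstar, lap_quad]
  have h1 : 0 ≤ ∑ e, c e * (x (s e) - x (t e)) ^ 2 :=
    Finset.sum_nonneg fun e _ => mul_nonneg (hc e).le (sq_nonneg _)
  rcases (add_nonneg (sq_nonneg (x r)) h1).lt_or_eq with h | h
  · exact h
  · exfalso
    have hr : x r = 0 := by
      have : (x r) ^ 2 = 0 := by nlinarith [sq_nonneg (x r)]
      exact pow_eq_zero_iff (two_ne_zero) |>.1 this
    have hs : ∑ e, c e * (x (s e) - x (t e)) ^ 2 = 0 := by nlinarith [sq_nonneg (x r)]
    have he : ∀ e, x (s e) = x (t e) := by
      intro e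
      have := (Finset.sum_eq_zero_iff_of_nonneg
        (fun e _ => mul_nonneg (hc e).le (sq_nonneg (x (s e) - x (t e))))).1 hs e (mem_univ e)
      have h2 : (x (s e) - x (t e)) ^ 2 = 0 := by
        rcases mul_eq_zero.1 this with h3 | h3
        · exact absurd h3 (hc e).ne'
        · exact h3
      have h3 := pow_eq_zero_iff (two_ne_zero) |>.1 h2
      linarith
    apply hx
    by_contra hne
    set S : Finset V := univ.filter fun v => x v = 0 with hS
    have hSr : r ∈ S := by simp [hS, hr]
    have hSu : S ≠ univ := by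
      intro hu
      apply hne
      ext v
      have : v ∈ S := by rw [hu]; exact mem_univ v
      simpa [hS] using this
    obtain ⟨e, he'⟩ := hcon S ⟨r, hSr⟩ hSu
    simp only [cut, mem_filter, mem_univ, true_and, hS] at he'
    rcases he' with ⟨h4, h5⟩ | ⟨h4, h5⟩
    · exact h5 (by rw [← he e]; exact h4)
    · exact h4 (by rw [he e]; exact h5)

/-- matrix determinant lemma -/
theorem det_add_rank_one {M : Matrix V V ℝ} (hM : IsUnit M.det) (δ : ℝ) (a : V → ℝ) :
    (M + δ • vecMulVec a a).det = M.det * (1 + δ * (a ⬝ᵥ (M⁻¹ *ᵥ a))) := by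
  have h := Matrix.det_add_replicateCol_mul_replicateRow (ι := Unit) hM (δ • a) a
  have h1 : replicateCol Unit (δ • a) * replicateRow Unit a = δ • vecMulVec a a := by
    ext i j
    simp [Matrix.mul_apply, vecMulVec, mul_assoc]
  rw [h1] at h
  rw [h]
  congr 1
  rw [Matrix.det_unique]
  simp only [Matrix.add_apply, Matrix.one_apply_eq]
  congr 1
  rw [Matrix.mul_assoc]
  simp only [Matrix.mul_apply, replicateRow_apply, replicateCol_apply, dotProduct, mulVec,
    Pi.smul_apply, smul_eq_mul, Finset.mul_sum]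
  refine Finset.sum_congr rfl fun i _ => Finset.sum_congr rfl fun j _ => ?_
  ring

theorem lap_update (s t : E → V) (r : V) (c : E → ℝ) (e : E) (y : ℝ) :
    lap s t r (Function.update c e y)
      = lap s t r c + (y - c e) • vecMulVec (inc s t e) (inc s t e) := by
  unfold lap
  rw [add_assoc]
  congr 1
  rw [← Finset.add_sum_erase _ _ (mem_univ e), ← Finset.add_sum_erase _ (fun e => c e • _) (mem_univ e)]
  have : ∑ x ∈ univ.erase e, Function.update c e y x • vecMulVec (inc s t x) (inc s t x)
      = ∑ x ∈ univ.erase e, c x • vecMulVec (inc s t x) (inc s t x) := by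
    refine Finset.sum_congr rfl fun x hx => ?_
    rw [Function.update_of_ne (Finset.ne_of_mem_erase hx)]
  rw [this, Function.update_self, sub_smul]
  abel

end Pool.Agent.Energy
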