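import Pool.Agent.Work.Energy.Weights

/-! # Ground states of the electrical energy in a coset of a lattice -/

set_option autoImplicit false

open Finset Matrix

namespace Pool.Agent.Energy

variable {V E : Type*} [Fintype V] [DecidableEq V] [Fintype E] [DecidableEq E]

omit [Fintype V] in
theorem PosDef_symm {M : Matrix V V ℝ} [Fintype V] (hM : M.PosDef) : Mᵀ = M := by
  have := hM.isHermitian
  unfold Matrix.IsHermitian at this
  rwa [Matrix.conjTranspose_eq_transpose_of_trivial] at this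

theorem dot_symm {M : Matrix V V ℝ} (hM : M.PosDef) (x y : V → ℝ) :
    x ⬝ᵥ (M *ᵥ y) = y ⬝ᵥ (M *ᵥ x) := by
  rw [dotProduct_comm, ← Matrix.vecMul_transpose, PosDef_symm hM, Matrix.dotProduct_mulVec]

theorem quad_nonneg {M : Matrix V V ℝ} (hM : M.PosDef) (x : V → ℝ) : 0 ≤ x ⬝ᵥ (M *ᵥ x) := by
  have := hM.posSemidef.dotProduct_mulVec_nonneg x
  have hstar : star x = x := by ext i; simp
  rwa [hstar] at this

theorem mul_inv_mulVec {M : Matrix V V ℝ} (hM : M.PosDef) (x : V → ℝ) : M *ᵥ (M⁻¹ *ᵥ x) = x := by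
  have hu : IsUnit M.det := hM.det_pos.ne'.isUnit
  rw [Matrix.mulVec_mulVec, Matrix.mul_nonsing_inv _ hu, Matrix.one_mulVec]

theorem sq_coord_le {M : Matrix V V ℝ} (hM : M.PosDef) (x : V → ℝ) (v : V) :
    (x v) ^ 2 ≤ (x ⬝ᵥ (M⁻¹ *ᵥ x)) * M v v := by
  set φ := M⁻¹ *ᵥ x with hφ
  have hMφ : M *ᵥ φ = x := mul_inv_mulVec hM x
  have hMvv : 0 < M v v := hM.diag_pos
  set l : ℝ := x v / M v v with hl
  set e : V → ℝ := Pi.single v 1 with he
  have h := quad_nonneg hM (φ - l • e)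
  have h1 : M *ᵥ (φ - l • e) = x - l • (M *ᵥ e) := by
    rw [Matrix.mulVec_sub, Matrix.mulVec_smul, hMφ]
  have h2 : φ ⬝ᵥ (M *ᵥ e) = x v := by
    rw [dot_symm hM, hMφ, he, single_one_dotProduct]
  have h3 : e ⬝ᵥ (M *ᵥ e) = M v v := by
    rw [he, single_one_dotProduct, Matrix.mulVec_single_one]
    rfl
  have h4 : e ⬝ᵥ x = x v := by rw [he, single_one_dotProduct]
  rw [h1, sub_dotProduct, dotProduct_sub, dotProduct_sub,
    smul_dotProduct, smul_dotProduct, dotProduct_smul,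
    dotProduct_smul, h2, h3, h4, dotProduct_comm φ x] at h
  simp only [smul_eq_mul] at h
  have h5 : l * M v v = x v := by rw [hl]; field_simp
  have h6 : 0 ≤ x ⬝ᵥ φ - l * x v := by
    have : l * (l * M v v) = l * x v := by rw [h5]
    linarith
  have h7 : 0 ≤ (x ⬝ᵥ φ - l * x v) * M v v := mul_nonneg h6 hMvv.le
  have h8 : l * x v * M v v = (x v) ^ 2 := by
    rw [mul_right_comm, h5]; ring
  nlinarith

/-- integer incidence vector -/
def incZ (s t : E → V) (e : E) : V → ℤ := Pi.single (s e) 1 - Pi.single (t e) 1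

omit [Fintype V] [Fintype E] [DecidableEq E] in
theorem incZ_cast (s t : E → V) (e : E) (v : V) : ((incZ s t e v : ℤ) : ℝ) = inc s t e v := by
  simp only [incZ, inc, Pi.sub_apply, Int.cast_sub]
  congr 1
  · by_cases h : v = s e
    · subst h; simp
    · simp [Pi.single_apply, h]
  · by_cases h : v = t e
    · subst h; simp
    · simp [Pi.single_apply, h]

omit [Fintype E] [DecidableEq E] in
theorem incZ_sum (s t : E → V) (e : E) : ∑ v, incZ s t e v = 0 := by
  simp [incZ, Finset.sum_sub_distrib]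

omit [Fintype E] [DecidableEq E] in
theorem inc_sum (s t : E → V) (e : E) : ∑ v, inc s t e v = 0 := by
  simp [inc, Finset.sum_sub_distrib]

/-- existence of the ground state -/
theorem exists_ground {M : Matrix V V ℝ} (hM : M.PosDef) (q : ℕ) (x0 : V → ℤ)
    (h0 : ∑ v, x0 v = 0) :
    ∃ x : V → ℤ, (∀ v, (q : ℤ) ∣ x v - x0 v) ∧ ∑ v, x v = 0 ∧
      ∀ y : V → ℤ, (∀ v, (q : ℤ) ∣ y v - x0 v) → ∑ v, y v = 0 →
        (fun v => (x v : ℝ)) ⬝ᵥ (M⁻¹ *ᵥ fun v => (x v : ℝ))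
          ≤ (fun v => (y v : ℝ)) ⬝ᵥ (M⁻¹ *ᵥ fun v => (y v : ℝ)) := by
  classical
  set Q : (V → ℤ) → ℝ := fun y => (fun v => (y v : ℝ)) ⬝ᵥ (M⁻¹ *ᵥ fun v => (y v : ℝ)) with hQ
  set A : Set (V → ℤ) := {y | (∀ v, (q : ℤ) ∣ y v - x0 v) ∧ ∑ v, y v = 0 ∧ Q y ≤ Q x0} with hA
  have hx0A : x0 ∈ A := ⟨fun v => by simp, h0, le_rfl⟩
  have hfin : A.Finite := by
    obtain ⟨B, hB⟩ : ∃ B : ℕ, ∀ v, Q x0 * M v v ≤ B := by
      obtain ⟨B, hB⟩ := exists_nat_ge (∑ v, |Q x0 * M v v|)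
      refine ⟨B, fun v => le_trans (le_abs_self _) (le_trans ?_ hB)⟩
      exact Finset.single_le_sum (f := fun v => |Q x0 * M v v|) (fun _ _ => abs_nonneg _)
        (mem_univ v)
    refine (Set.finite_Icc (fun _ : V => -(B : ℤ)) (fun _ => (B : ℤ))).subset ?_
    intro y hy
    have hb : ∀ v, |y v| ≤ (B : ℤ) := by
      intro v
      have h1 := sq_coord_le hM (fun v => (y v : ℝ)) v
      have hMvv : 0 < M v v := hM.diag_pos
      have h2 : ((y v : ℝ)) ^ 2 ≤ B := by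
        refine le_trans h1 (le_trans ?_ (hB v))
        exact mul_le_mul_of_nonneg_right hy.2.2 hMvv.le
      have h3 : (y v) ^ 2 ≤ (B : ℤ) := by exact_mod_cast h2
      have h4 : |y v| ≤ (y v) ^ 2 := by
        rw [← sq_abs]
        rcases eq_or_ne (y v) 0 with h | h
        · simp [h]
        · have := Int.one_le_abs h
          nlinarith
      exact le_trans h4 h3
    exact ⟨fun v => (abs_le.1 (hb v)).1, fun v => (abs_le.1 (hb v)).2⟩
  obtain ⟨x, hxA, hmin⟩ := Set.exists_min_image A Q hfin ⟨x0, hx0A⟩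
  refine ⟨x, hxA.1, hxA.2.1, fun y hy1 hy2 => ?_⟩
  by_cases hy : Q y ≤ Q x0
  · exact hmin y ⟨hy1, hy2, hy⟩
  · push Not at hy
    exact le_trans hxA.2.2 hy.le

/-- the ground state has small currents -/
theorem exists_current {s t : E → V} {r : V} {c : E → ℝ} (hc : ∀ e, 0 < c e)
    (hM : (lap s t r c).PosDef) {q : ℕ} (hq : 0 < q) (x0 : V → ℤ) (h0 : ∑ v, x0 v = 0) :
    ∃ (x : V → ℤ) (i : E → ℝ), (∀ v, (q : ℤ) ∣ x v - x0 v) ∧ ∑ v, x v = 0 ∧
      (∀ e, |i e| ≤ (q / 2 : ℝ) * prb s t r c e) ∧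
      ∀ v, ∑ e, i e * inc s t e v = x v := by
  classical
  obtain ⟨x, hx1, hx2, hmin⟩ := exists_ground hM q x0 h0
  set M := lap s t r c with hMdef
  set xr : V → ℝ := fun v => (x v : ℝ) with hxr
  set φ : V → ℝ := M⁻¹ *ᵥ xr with hφ
  have hMφ : M *ᵥ φ = xr := mul_inv_mulVec hM xr
  have hlap := lap_mulVec s t r c φ
  rw [← hMdef, hMφ] at hlap
  have hφr : φ r = 0 := by
    have h1 : ∑ v, xr v = 0 := by
      have : ((∑ v, x v : ℤ) : ℝ) = 0 := by rw [hx2]; simp
      simpa [hxr] using this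
    rw [hlap] at h1
    simp only [Pi.add_apply, Finset.sum_apply, Pi.smul_apply, smul_eq_mul] at h1
    rw [Finset.sum_add_distrib, Finset.sum_comm] at h1
    have h2 : ∑ e, ∑ v, c e * (φ (s e) - φ (t e)) * inc s t e v = 0 := by
      refine Finset.sum_eq_zero fun e _ => ?_
      rw [← Finset.mul_sum, inc_sum, mul_zero]
    rw [h2] at h1
    simpa [← Finset.mul_sum] using h1
  have hpair : ∀ a : V → ℤ, ∑ v, a v = 0 →
      2 * ((fun v => (a v : ℝ)) ⬝ᵥ φ)
        ≤ q * ((fun v => (a v : ℝ)) ⬝ᵥ (M⁻¹ *ᵥ fun v => (a v : ℝ))) := by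
    intro a ha
    set ar : V → ℝ := fun v => (a v : ℝ) with har
    have h1 := hmin (fun v => x v - q * a v)
      (fun v => by
        have : x v - q * a v - x0 v = (x v - x0 v) - q * a v := by ring
        rw [this]
        exact dvd_sub (hx1 v) (dvd_mul_right _ _))
      (by rw [Finset.sum_sub_distrib, ← Finset.mul_sum, ha, hx2]; simp)
    have h2 : (fun v => ((x v - q * a v : ℤ) : ℝ)) = xr - (q : ℝ) • ar := by
      ext v
      simp [hxr, har]
    rw [h2, Matrix.mulVec_sub, Matrix.mulVec_smul, sub_dotProduct, dotProduct_sub,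
      dotProduct_sub, smul_dotProduct, smul_dotProduct,
      dotProduct_smul, dotProduct_smul, dot_symm hM.inv xr ar] at h1
    simp only [smul_eq_mul] at h1
    have hq' : (0 : ℝ) < q := by exact_mod_cast hq
    have h3 : 0 ≤ (q : ℝ) * (q * (ar ⬝ᵥ (M⁻¹ *ᵥ ar)) - 2 * (ar ⬝ᵥ (M⁻¹ *ᵥ xr))) := by nlinarith
    have h4 := nonneg_of_mul_nonneg_right h3 hq'
    linarith
  refine ⟨x, fun e => c e * (φ (s e) - φ (t e)), hx1, hx2, fun e => ?_, fun v => ?_⟩
  · have h1 := hpair (incZ s t e) (incZ_sum s t e)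
    have h2 := hpair (fun v => - incZ s t e v) (by simp [incZ_sum])
    have e1 : (fun v => ((incZ s t e v : ℤ) : ℝ)) = inc s t e := by
      ext v; exact incZ_cast s t e v
    have e2 : (fun v => ((-incZ s t e v : ℤ) : ℝ)) = -inc s t e := by
      ext v; simp [incZ_cast]
    rw [e1, inc_dot] at h1
    rw [e2, neg_dotProduct, neg_dotProduct, Matrix.mulVec_neg,
      dotProduct_neg, neg_neg, inc_dot] at h2
    have hR : prb s t r c e = c e * (inc s t e ⬝ᵥ (M⁻¹ *ᵥ inc s t e)) := rfl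
    set R := inc s t e ⬝ᵥ (M⁻¹ *ᵥ inc s t e) with hRdef
    rw [hR, abs_le]
    have hce := hc e
    constructor <;> nlinarith
  · have := congrFun hlap v
    rw [hφr] at this
    simp only [zero_smul, zero_add, Finset.sum_apply, Pi.smul_apply, smul_eq_mul] at this
    rw [← this]

end Pool.Agent.Energy
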