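import Pool.Agent.Work.Energy.Modular
import Pool.Agent.Work.MP_974d84_co.MHoffman

/-!
# Modular flows between bounds

If for every partition of the vertex set into `c` classes the sum of `u e - l e` over the crossing
edges is at least `q (c - 1)`, then every `β` with sum in `q ℤ` is modulo `q` the net outflow of
some `f` with `l ≤ f ≤ u`.
-/

set_option autoImplicit false

open Finset

namespace Pool.Agent.Energy.MF

universe u w

variable {V : Type u} {E : Type w} [Fintype V] [DecidableEq V] [Fintype E] [DecidableEq E]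

section copies

variable (n : E → ℕ)

omit [Fintype V] [DecidableEq E] in
theorem netZ_sigma (s t : E → V) (g : (Σ e : E, Fin (n e)) → ℤ) (v : V) :
    netZ (fun x : (Σ e : E, Fin (n e)) => s x.1) (fun x => t x.1) g v =
      netZ s t (fun e => ∑ i, g ⟨e, i⟩) v := by
  unfold netZ
  rw [Fintype.sum_sigma, Fintype.sum_sigma]
  congr 1
  · refine sum_congr rfl fun e _ => ?_
    by_cases h : s e = v
    · simp [h]
    · simp [h]
  · refine sum_congr rfl fun e _ => ?_
    by_cases h : t e = v
    · simp [h]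
    · simp [h]

omit [Fintype V] [DecidableEq V] [DecidableEq E] in
theorem card_sigma_filter (P : E → Prop) [DecidablePred P] :
    ((univ.filter fun x : (Σ e : E, Fin (n e)) => P x.1).card : ℝ) =
      ∑ e ∈ univ.filter P, (n e : ℝ) := by
  rw [card_filter]
  push_cast
  rw [Fintype.sum_sigma, sum_filter]
  refine sum_congr rfl fun e _ => ?_
  by_cases h : P e
  · simp [h]
  · simp [h]

end copies

omit [Fintype V] [DecidableEq E] in
theorem netZ_add (s t : E → V) (f g : E → ℤ) (v : V) :
    netZ s t (fun e => f e + g e) v = netZ s t f v + netZ s t g v := by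
  have h : ((netZ s t (fun e => f e + g e) v : ℤ) : ℝ) =
      ((netZ s t f v + netZ s t g v : ℤ) : ℝ) := by
    push_cast
    rw [← net_cast, ← net_cast, ← net_cast]
    unfold net
    rw [← sum_add_distrib]
    refine sum_congr rfl fun e _ => ?_
    push_cast
    ring
  exact_mod_cast h

omit [Fintype V] [DecidableEq E] in
theorem netZ_two (s t : E → V) (g : E → ℤ) (v : V) :
    netZ s t (fun e => 2 * g e - 1) v = 2 * netZ s t g v - netZ s t (fun _ => 1) v := by
  have h : ((netZ s t (fun e => 2 * g e - 1) v : ℤ) : ℝ) =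
      ((2 * netZ s t g v - netZ s t (fun _ => 1) v : ℤ) : ℝ) := by
    have h6 : net s t (fun e => ((2 * g e - 1 : ℤ) : ℝ)) v
        = 2 * net s t (fun e => (g e : ℝ)) v + (-1) * net s t (fun _ => 1) v := by
      rw [← net_lin]
      congr 1
      ext e
      push_cast
      ring
    rw [net_cast, net_cast, net_one] at h6
    rw [h6]
    push_cast
    ring
  exact_mod_cast h

/-- **Integral modular flows between bounds.** -/
theorem int_flows (s t : E → V) {q : ℕ} (hq : 0 < q) (l u : E → ℤ) (hlu : ∀ e, l e ≤ u e)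
    (hs : ∀ p : V → ℕ, (q : ℝ) * (((univ.image p).card : ℝ) - 1) ≤
      ∑ e ∈ univ.filter (fun e => p (s e) ≠ p (t e)), ((u e : ℝ) - l e))
    (β : V → ℤ) (hβ : (q : ℤ) ∣ ∑ v, β v) :
    ∃ f : E → ℤ, (∀ e, l e ≤ f e ∧ f e ≤ u e) ∧ ∀ v, (q : ℤ) ∣ netZ s t f v - β v := by
  classical
  have hqR : (0 : ℝ) < q := by exact_mod_cast hq
  let n : E → ℕ := fun e => (u e - l e).toNat
  have hn : ∀ e, ((n e : ℕ) : ℤ) = u e - l e := fun e =>
    Int.toNat_of_nonneg (by have := hlu e; omega)
  let s' : (Σ e : E, Fin (n e)) → V := fun x => s x.1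
  let t' : (Σ e : E, Fin (n e)) → V := fun x => t x.1
  have hθ : ∀ p : V → ℕ, ((univ.image p).card : ℝ) - 1 ≤
      1 / (q : ℝ) * ((univ.filter (fun x => p (s' x) ≠ p (t' x))).card : ℝ) := by
    intro p
    have h1 := hs p
    have h2 : ((univ.filter (fun x => p (s' x) ≠ p (t' x))).card : ℝ) =
        ∑ e ∈ univ.filter (fun e => p (s e) ≠ p (t e)), ((u e : ℝ) - l e) := by
      have h3 := card_sigma_filter n (fun e => p (s e) ≠ p (t e))
      have h4 : ∀ e, ((n e : ℕ) : ℝ) = (u e : ℝ) - l e := fun e => by exact_mod_cast hn e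
      simp only [h4] at h3
      exact h3
    rw [h2, one_div, inv_mul_eq_div, le_div_iff₀ hqR, mul_comm]
    exact h1
  let x0 : V → ℤ := fun v => 2 * (β v - netZ s t l v) - netZ s' t' (fun _ => 1) v
  obtain ⟨σ, hσ, hσv⟩ := modular_orientation s' t' (1 / (q : ℝ)) (by positivity) hθ hq
    (by rw [mul_one_div, div_self hqR.ne']) x0
    (fun v => ⟨β v - netZ s t l v - netZ s' t' (fun _ => 1) v, by
      show 2 * (β v - netZ s t l v) - netZ s' t' (fun _ => 1) v - netZ s' t' (fun _ => 1) v = _
      ring⟩)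
    (by
      obtain ⟨j, hj⟩ := hβ
      refine ⟨j, ?_⟩
      show ∑ v, (2 * (β v - netZ s t l v) - netZ s' t' (fun _ => 1) v) = _
      rw [sum_sub_distrib, sum_netZ, ← mul_sum, sum_sub_distrib, sum_netZ, hj]
      ring)
  let g : (Σ e : E, Fin (n e)) → ℤ := fun x => if σ x = 1 then 1 else 0
  have hg : ∀ x, σ x = 2 * g x - 1 := by
    intro x
    rcases hσ x with h | h
    · simp only [g, h, if_pos]
      norm_num
    · simp only [g, h]
      norm_num
  have hg0 : ∀ x, 0 ≤ g x ∧ g x ≤ 1 := by
    intro x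
    simp only [g]
    split_ifs <;> norm_num
  refine ⟨fun e => l e + ∑ i, g ⟨e, i⟩, fun e => ⟨?_, ?_⟩, fun v => ?_⟩
  · have h1 : 0 ≤ ∑ i : Fin (n e), g ⟨e, i⟩ := sum_nonneg fun i _ => (hg0 _).1
    show l e ≤ l e + ∑ i, g ⟨e, i⟩
    omega
  · have h1 : ∑ i : Fin (n e), g ⟨e, i⟩ ≤ ∑ _i : Fin (n e), (1 : ℤ) :=
      sum_le_sum fun i _ => (hg0 _).2
    rw [sum_const, card_univ, Fintype.card_fin, nsmul_eq_mul, mul_one, hn e] at h1
    show l e + ∑ i, g ⟨e, i⟩ ≤ u e
    omega
  · obtain ⟨j, hj⟩ := hσv v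
    have h1 : netZ s' t' σ v = 2 * netZ s' t' g v - netZ s' t' (fun _ => 1) v := by
      rw [← netZ_two]
      congr 1
      funext x
      exact hg x
    have h2 : netZ s' t' g v = netZ s t (fun e => ∑ i, g ⟨e, i⟩) v := netZ_sigma n s t g v
    rw [netZ_add, ← h2]
    refine ⟨j, ?_⟩
    have h3 : netZ s' t' σ v - (2 * (β v - netZ s t l v) - netZ s' t' (fun _ => 1) v) =
        2 * (q : ℤ) * j := hj
    rw [h1] at h3
    linarith

omit [Fintype V] [DecidableEq E] in
theorem net_smul (s t : E → V) (z : E → ℝ) (a : ℝ) (v : V) :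
    net s t (fun e => a * z e) v = a * net s t z v := by
  have := net_lin s t z a 0 v
  simp only [zero_mul, add_zero] at this
  exact this

/-- **Real modular flows between bounds.** -/
theorem real_flows (s t : E → V) {q : ℝ} (hq : 0 < q) (l u : E → ℝ) (hlu : ∀ e, l e ≤ u e)
    (hs : ∀ p : V → ℕ, q * (((univ.image p).card : ℝ) - 1) ≤
      ∑ e ∈ univ.filter (fun e => p (s e) ≠ p (t e)), (u e - l e))
    (β : V → ℝ) (hβ : ∃ k : ℤ, ∑ v, β v = q * k) :
    ∃ f : E → ℝ, (∀ e, l e ≤ f e ∧ f e ≤ u e) ∧ ∀ v, ∃ k : ℤ, net s t f v = β v + q * k := by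
  classical
  rcases isEmpty_or_nonempty V with hV | hV
  · exact ⟨fun e => (hV.false (s e)).elim, fun e => (hV.false (s e)).elim,
      fun v => (hV.false v).elim⟩
  obtain ⟨r⟩ := hV
  obtain ⟨k, hk⟩ := hβ
  -- the approximations
  have happ : ∀ N : ℕ, ∃ f : E → ℝ,
      (∀ e, l e - q / (N + 1) ≤ f e ∧ f e ≤ u e + q / (N + 1)) ∧
      ∀ v, ∃ b : ℝ, |b - β v| ≤ q / (N + 1) * Fintype.card V ∧ ∃ j : ℤ, net s t f v = b + q * j := by
    intro N
    obtain ⟨M, hM⟩ : ∃ M : ℕ, M = N + 1 := ⟨_, rfl⟩
    have hM0 : 0 < M := by omega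
    have hMR : (0 : ℝ) < M := by exact_mod_cast hM0
    have hMN : (M : ℝ) = N + 1 := by exact_mod_cast hM
    let a : V → ℤ := fun v => ⌊M * β v / q⌋
    let B : V → ℤ := fun v => if v = r then M * k - ∑ w ∈ univ.erase r, a w else a v
    have hBsum : ∑ v, B v = M * k := by
      rw [← add_sum_erase univ B (mem_univ r)]
      have h1 : ∑ v ∈ univ.erase r, B v = ∑ v ∈ univ.erase r, a v :=
        sum_congr rfl fun v hv => if_neg (ne_of_mem_erase hv)
      rw [h1]
      simp only [B, if_pos]
      ring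
    have ha1 : ∀ v, (a v : ℝ) ≤ M * β v / q := fun v => Int.floor_le _
    have ha2 : ∀ v, M * β v / q - 1 ≤ (a v : ℝ) := fun v => (Int.sub_one_lt_floor _).le
    have hB : ∀ v, |(B v : ℝ) - M * β v / q| ≤ Fintype.card V := by
      intro v
      have hc1 : (1 : ℝ) ≤ Fintype.card V := by
        exact_mod_cast Fintype.card_pos_iff.2 ⟨r⟩
      by_cases hv : v = r
      · have h1 : (B v : ℝ) = M * k - ∑ w ∈ univ.erase r, (a w : ℝ) := by
          simp only [B, if_pos hv]
          push_cast
          ring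
        have h2 : (M : ℝ) * β v / q = M * k - ∑ w ∈ univ.erase r, M * β w / q := by
          have h3 : ∑ w, M * β w / q = (M : ℝ) * k := by
            rw [← sum_div, ← mul_sum, hk]
            field_simp
          rw [← add_sum_erase univ _ (mem_univ r)] at h3
          rw [hv]
          linarith
        rw [h1, h2]
        have h4 : (M : ℝ) * k - ∑ w ∈ univ.erase r, (a w : ℝ) -
            (M * k - ∑ w ∈ univ.erase r, M * β w / q) =
            ∑ w ∈ univ.erase r, (M * β w / q - a w) := by
          rw [sum_sub_distrib]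
          ring
        rw [h4, abs_le]
        constructor
        · have h5 : 0 ≤ ∑ w ∈ univ.erase r, (M * β w / q - a w) :=
            sum_nonneg fun w _ => by
              have := ha1 w
              linarith
          linarith
        · have h5 : ∑ w ∈ univ.erase r, (M * β w / q - a w) ≤ ∑ _w ∈ univ.erase r, (1 : ℝ) :=
            sum_le_sum fun w _ => by
              have := ha2 w
              linarith
          rw [sum_const, nsmul_eq_mul, mul_one] at h5
          refine h5.trans ?_
          exact_mod_cast card_le_univ _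
      · simp only [B, if_neg hv]
        rw [abs_le]
        have h1 := ha1 v
        have h2 := ha2 v
        constructor <;> linarith
    obtain ⟨F, hF1, hF2⟩ := int_flows s t hM0 (fun e => ⌊M * l e / q⌋) (fun e => ⌈M * u e / q⌉)
      (fun e => by
        have h1 : M * l e / q ≤ M * u e / q := by
          have := mul_le_mul_of_nonneg_left (hlu e) hMR.le
          exact div_le_div_of_nonneg_right this hq.le
        have h2 : (⌊M * l e / q⌋ : ℝ) ≤ ⌈M * u e / q⌉ :=
          (Int.floor_le _).trans (h1.trans (Int.le_ceil _))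
        exact_mod_cast h2)
      (fun p => by
        have h1 := mul_le_mul_of_nonneg_left (hs p) (div_nonneg hMR.le hq.le : (0 : ℝ) ≤ M / q)
        have h2 : (M : ℝ) / q * (q * (((univ.image p).card : ℝ) - 1)) =
            M * (((univ.image p).card : ℝ) - 1) := by
          field_simp
        rw [h2, mul_sum] at h1
        refine h1.trans (sum_le_sum fun e _ => ?_)
        have h3 : (⌊M * l e / q⌋ : ℝ) ≤ M * l e / q := Int.floor_le _
        have h4 : M * u e / q ≤ (⌈M * u e / q⌉ : ℝ) := Int.le_ceil _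
        have h5 : (M : ℝ) / q * (u e - l e) = M * u e / q - M * l e / q := by ring
        rw [h5]
        linarith)
      B (by rw [hBsum]; exact dvd_mul_right _ _)
    have hqM : (0 : ℝ) < q / M := div_pos hq hMR
    refine ⟨fun e => q / M * F e, fun e => ⟨?_, ?_⟩, fun v => ?_⟩
    · have h1 : (M : ℝ) * l e / q - 1 ≤ F e := by
        have h2 : (⌊M * l e / q⌋ : ℝ) ≤ F e := by exact_mod_cast (hF1 e).1
        have h3 := (Int.sub_one_lt_floor (M * l e / q)).le
        linarith
      have h2 := mul_le_mul_of_nonneg_left h1 hqM.le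
      rw [← hMN]
      have h3 : q / M * (M * l e / q - 1) = l e - q / M := by
        field_simp
      linarith
    · have h1 : (F e : ℝ) ≤ M * u e / q + 1 := by
        have h2 : (F e : ℝ) ≤ ⌈M * u e / q⌉ := by exact_mod_cast (hF1 e).2
        have h3 := (Int.ceil_lt_add_one (M * u e / q)).le
        linarith
      have h2 := mul_le_mul_of_nonneg_left h1 hqM.le
      rw [← hMN]
      have h3 : q / M * (M * u e / q + 1) = u e + q / M := by
        field_simp
      linarith
    · obtain ⟨j, hj⟩ := hF2 v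
      refine ⟨q / M * B v, ?_, j, ?_⟩
      · have h1 : q / M * (B v : ℝ) - β v = q / M * ((B v : ℝ) - M * β v / q) := by
          field_simp
        rw [h1, abs_mul, abs_of_pos hqM, ← hMN]
        exact mul_le_mul_of_nonneg_left (hB v) hqM.le
      · have h1 : net s t (fun e => q / M * (F e : ℝ)) v = q / M * net s t (fun e => (F e : ℝ)) v :=
          net_smul s t _ _ v
        rw [h1, net_cast]
        have h2 : netZ s t F v = B v + M * j := by linarith
        rw [h2]
        push_cast
        field_simp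
  choose f hf1 hf2 using happ
  have hbox : ∀ N, f N ∈ Set.Icc (fun e => l e - q) (fun e => u e + q) := by
    intro N
    have h1 : q / ((N : ℝ) + 1) ≤ q := by
      rw [div_le_iff₀ (by positivity)]
      have : (0 : ℝ) ≤ N := Nat.cast_nonneg _
      nlinarith
    refine ⟨fun e => ?_, fun e => ?_⟩
    · have := (hf1 N e).1
      show l e - q ≤ f N e
      linarith
    · have := (hf1 N e).2
      show f N e ≤ u e + q
      linarith
  obtain ⟨F, -, φ, hφ, hlim⟩ := (isCompact_Icc : IsCompact
    (Set.Icc (fun e => l e - q) (fun e => u e + q))).tendsto_subseq hbox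
  have hε : Filter.Tendsto (fun n : ℕ => q / ((φ n : ℝ) + 1)) Filter.atTop (nhds 0) := by
    have h1 : Filter.Tendsto (fun n : ℕ => q / ((n : ℝ) + 1)) Filter.atTop (nhds 0) := by
      have := (tendsto_one_div_add_atTop_nhds_zero_nat (𝕜 := ℝ)).const_mul q
      simp only [mul_one_div, mul_zero] at this
      exact this
    exact h1.comp hφ.tendsto_atTop
  have hcoord : ∀ e, Filter.Tendsto (fun n => f (φ n) e) Filter.atTop (nhds (F e)) := fun e =>
    (tendsto_pi_nhds.1 hlim) e
  refine ⟨F, fun e => ⟨?_, ?_⟩, fun v => ?_⟩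
  · have h1 : Filter.Tendsto (fun n => l e - q / ((φ n : ℝ) + 1)) Filter.atTop (nhds (l e - 0)) :=
      tendsto_const_nhds.sub hε
    rw [sub_zero] at h1
    exact le_of_tendsto_of_tendsto' h1 (hcoord e) fun n => (hf1 (φ n) e).1
  · have h1 : Filter.Tendsto (fun n => u e + q / ((φ n : ℝ) + 1)) Filter.atTop (nhds (u e + 0)) :=
      tendsto_const_nhds.add hε
    rw [add_zero] at h1
    exact le_of_tendsto_of_tendsto' (hcoord e) h1 fun n => (hf1 (φ n) e).2
  · choose b hb1 j hj using fun n => hf2 (φ n) v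
    have hnet : Filter.Tendsto (fun n => net s t (f (φ n)) v) Filter.atTop
        (nhds (net s t F v)) := ((continuous_net s t v).tendsto F).comp hlim
    have hb : Filter.Tendsto b Filter.atTop (nhds (β v)) := by
      have h1 : Filter.Tendsto (fun n => b n - β v) Filter.atTop (nhds 0) := by
        refine squeeze_zero_norm (a := fun n => q / ((φ n : ℝ) + 1) * Fintype.card V)
          (fun n => ?_) ?_
        · rw [Real.norm_eq_abs]
          exact hb1 n
        · have := hε.mul_const (Fintype.card V : ℝ)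
          rw [zero_mul] at this
          exact this
      have h2 := h1.add_const (β v)
      simp only [sub_add_cancel, zero_add] at h2
      exact h2
    have hd : Filter.Tendsto (fun n => (net s t (f (φ n)) v - b n) / q) Filter.atTop
        (nhds ((net s t F v - β v) / q)) := (hnet.sub hb).div_const q
    have hmem : ∀ n, (net s t (f (φ n)) v - b n) / q ∈ Set.range ((↑) : ℤ → ℝ) := by
      intro n
      refine ⟨j n, ?_⟩
      rw [hj n]
      field_simp
      ring
    have hcl := Int.isClosedEmbedding_coe_real.isClosed_range.mem_of_tendsto hd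
      (Filter.Eventually.of_forall hmem)
    obtain ⟨i, hi⟩ := hcl
    refine ⟨i, ?_⟩
    rw [hi]
    field_simp
    ring

omit [Fintype V] [DecidableEq E] in
theorem net_ite (s t : E → V) (f : E → ℝ) (v : V) :
    net s t f v = (∑ e, if s e = v then f e else 0) - ∑ e, if t e = v then f e else 0 := by
  unfold net
  rw [← sum_sub_distrib]
  refine sum_congr rfl fun e _ => ?_
  rw [inc_apply]
  split_ifs <;> ring

omit [Fintype V] [DecidableEq E] in
theorem net_D (s t : E → V) (f : E → ℝ) (v : V) : net s t f v = MP974d84.D s t f v := by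
  rw [net_eq_dv]
  rfl

/-- Exact flows from modular ones. -/
theorem exact_flow (s t : E → V) {q : ℝ} (hq : 0 < q) (l u : E → ℝ) (β : V → ℝ) (f : E → ℝ)
    (hf : ∀ e, l e ≤ f e ∧ f e ≤ u e) (hfv : ∀ v, ∃ k : ℤ, net s t f v = β v + q * k)
    (hβ0 : ∑ v, β v = 0)
    (hcut : ∀ Z : Finset V, |∑ v ∈ Z, β v| <
      q + ∑ e ∈ univ.filter (fun e => ¬ (s e ∈ Z ↔ t e ∈ Z)), min (l e) (q - u e)) :
    ∃ g : E → ℝ, (∀ e, g e = f e ∨ g e = f e - q) ∧ ∀ v,
      (∑ e, if s e = v then g e else 0) - (∑ e, if t e = v then g e else 0) = β v := by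
  classical
  choose k hk using hfv
  have hksum : ∑ v, k v = 0 := by
    have h1 : ∑ v, net s t f v = 0 := by
      simp only [net_D]
      exact MP974d84.D_total s t f
    have h2 : ∑ v, net s t f v = q * ∑ v, (k v : ℝ) := by
      simp only [hk]
      rw [sum_add_distrib, hβ0, zero_add, mul_sum]
    have h3 : ∑ v, (k v : ℝ) = 0 := by
      rcases mul_eq_zero.1 (h2.symm.trans h1) with h | h
      · exact absurd h hq.ne'
      · exact h
    exact_mod_cast h3
  obtain ⟨z, hz, hzv⟩ := MP974d84.hoffmanE s t (fun _ => 0) (fun _ => 1) (fun _ => by simp) k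
    hksum (by
      intro Z
      have h1 : ∑ v ∈ Z, net s t f v = ∑ e, MP974d84.ov s t f Z e := by
        simp only [net_D]
        exact MP974d84.D_cut s t f Z
      have h2 : ∑ v ∈ Z, net s t f v = ∑ v ∈ Z, β v + q * ∑ v ∈ Z, (k v : ℝ) := by
        simp only [hk]
        rw [sum_add_distrib, mul_sum]
      have h3 : ∀ e, MP974d84.ov s t f Z e +
          (if ¬ (s e ∈ Z ↔ t e ∈ Z) then min (l e) (q - u e) else 0) ≤
            q * ((MP974d84.cap s t (fun _ => 0) (fun _ => 1) Z e : ℤ) : ℝ) := by
        intro e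
        have h4 := min_le_left (l e) (q - u e)
        have h5 := min_le_right (l e) (q - u e)
        have h6 := hf e
        unfold MP974d84.ov MP974d84.cap
        by_cases hs : s e ∈ Z
        · by_cases ht : t e ∈ Z
          · rw [if_pos hs, if_pos ht, if_neg (by tauto), if_pos hs, if_pos ht]
            simp
          · rw [if_pos hs, if_neg ht, if_pos (by tauto), if_pos hs, if_neg ht]
            push_cast
            linarith
        · by_cases ht : t e ∈ Z
          · rw [if_neg hs, if_pos ht, if_pos (by tauto), if_neg hs, if_pos ht]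
            push_cast
            linarith
          · rw [if_neg hs, if_neg ht, if_neg (by tauto), if_neg hs, if_neg ht]
            simp
      have h4 := sum_le_sum fun e (_ : e ∈ (univ : Finset E)) => h3 e
      rw [sum_add_distrib, ← sum_filter, ← mul_sum] at h4
      have h5 := hcut Z
      have h6 := neg_le_abs (∑ v ∈ Z, β v)
      have h7 : q * ∑ v ∈ Z, (k v : ℝ) <
          q * ((∑ e, ((MP974d84.cap s t (fun _ => 0) (fun _ => 1) Z e : ℤ) : ℝ)) + 1) := by
        have h8 : q * ∑ v ∈ Z, (k v : ℝ) = ∑ e, MP974d84.ov s t f Z e - ∑ v ∈ Z, β v := by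
          rw [← h1, h2]
          ring
        rw [h8, mul_add, mul_one]
        linarith
      have h8 := lt_of_mul_lt_mul_left h7 hq.le
      have h9 : ∑ v ∈ Z, k v < (∑ e, MP974d84.cap s t (fun _ => 0) (fun _ => 1) Z e) + 1 := by
        exact_mod_cast h8
      omega)
  refine ⟨fun e => f e - q * (z e : ℝ), fun e => ?_, fun v => ?_⟩
  · rcases (by have := hz e; omega : z e = 0 ∨ z e = 1) with h | h
    · left
      change f e - q * (z e : ℝ) = f e
      rw [h]
      simp
    · right
      change f e - q * (z e : ℝ) = f e - q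
      rw [h]
      simp
  have h3 : net s t (fun e => f e - q * (z e : ℝ)) v =
      net s t f v - q * net s t (fun e => (z e : ℝ)) v := by
    unfold net
    rw [mul_sum, ← sum_sub_distrib]
    exact sum_congr rfl fun e _ => by ring
  have h4 : net s t (fun e => (z e : ℝ)) v = k v := by
    rw [net_cast]
    have : netZ s t z v = k v := by
      rw [← hzv v]
      unfold netZ MP974d84.D
      rw [← sum_sub_distrib]
    rw [this]
  rw [← net_ite, h3, h4, hk v]
  ring

/-- **Modular flows between bounds**, final form. -/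
theorem flows_form (s t : E → V) {q : ℝ} (hq : 0 < q) (l u : E → ℝ) (hlu : ∀ e, l e ≤ u e)
    (hs : ∀ p : V → ℕ, q * (((univ.image p).card : ℝ) - 1) ≤
      ∑ e ∈ univ.filter (fun e => p (s e) ≠ p (t e)), (u e - l e))
    (β : V → ℝ) (hβ : ∃ k : ℤ, ∑ v, β v = q * k) :
    ∃ f : E → ℝ, (∀ e, l e ≤ f e ∧ f e ≤ u e) ∧
      (∀ v, ∃ k : ℤ, (∑ e, if s e = v then f e else 0) - (∑ e, if t e = v then f e else 0) =
        β v + q * k) ∧
      ((∃ a : ℤ, q = a) → (∀ e, (∃ a : ℤ, l e = a) ∧ ∃ a : ℤ, u e = a) →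
        (∀ v, ∃ a : ℤ, β v = a) → ∀ e, ∃ a : ℤ, f e = a) ∧
      (∑ v, β v = 0 →
        (∀ Z : Finset V, |∑ v ∈ Z, β v| <
          q + ∑ e ∈ univ.filter (fun e => ¬ (s e ∈ Z ↔ t e ∈ Z)), min (l e) (q - u e)) →
        ∃ g : E → ℝ, (∀ e, g e = f e ∨ g e = f e - q) ∧ ∀ v,
          (∑ e, if s e = v then g e else 0) - (∑ e, if t e = v then g e else 0) = β v) := by
  classical
  by_cases hint : (∃ a : ℤ, q = a) ∧ (∀ e, (∃ a : ℤ, l e = a) ∧ ∃ a : ℤ, u e = a) ∧
      ∀ v, ∃ a : ℤ, β v = a
  · obtain ⟨⟨Q, hQ⟩, hlu', hβ'⟩ := hint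
    choose L hL using fun e => (hlu' e).1
    choose U hU using fun e => (hlu' e).2
    choose b hb using hβ'
    have hQ0 : 0 < Q := by
      have : (0 : ℝ) < Q := hQ ▸ hq
      exact_mod_cast this
    obtain ⟨m, hm⟩ : ∃ m : ℕ, (m : ℤ) = Q := ⟨Q.toNat, Int.toNat_of_nonneg hQ0.le⟩
    have hmq : (m : ℝ) = q := by
      rw [hQ, ← hm]
      push_cast
      rfl
    obtain ⟨F, hF1, hF2⟩ := int_flows s t (q := m) (by omega) L U (fun e => by
        have := hlu e
        rw [hL, hU] at this
        exact_mod_cast this)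
      (fun p => by
        have := hs p
        rw [← hmq] at this
        simp only [hL, hU] at this
        exact this) b (by
        obtain ⟨k, hk⟩ := hβ
        refine ⟨k, ?_⟩
        rw [← hmq] at hk
        simp only [hb] at hk
        exact_mod_cast hk)
    have hFb : ∀ e, l e ≤ (F e : ℝ) ∧ (F e : ℝ) ≤ u e := fun e => by
      rw [hL, hU]
      exact_mod_cast hF1 e
    have hFv : ∀ v, ∃ k : ℤ, net s t (fun e => (F e : ℝ)) v = β v + q * k := by
      intro v
      obtain ⟨j, hj⟩ := hF2 v
      refine ⟨j, ?_⟩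
      rw [net_cast, hb, ← hmq]
      have : netZ s t F v = b v + m * j := by linarith
      rw [this]
      push_cast
      ring
    refine ⟨fun e => F e, hFb, fun v => ?_, fun _ _ _ e => ⟨F e, rfl⟩,
      fun h1 h2 => exact_flow s t hq l u β _ hFb hFv h1 h2⟩
    obtain ⟨k, hk⟩ := hFv v
    exact ⟨k, by rw [← net_ite, hk]⟩
  · obtain ⟨f, hf1, hf2⟩ := real_flows s t hq l u hlu hs β hβ
    refine ⟨f, hf1, fun v => ?_, fun h1 h2 h3 => absurd ⟨h1, h2, h3⟩ hint,
      fun h1 h2 => exact_flow s t hq l u β _ hf1 hf2 h1 h2⟩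
    obtain ⟨k, hk⟩ := hf2 v
    exact ⟨k, by rw [← net_ite, hk]⟩

end Pool.Agent.Energy.MF
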