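import Pool.Agent.Work.Energy.Coset
import Pool.Agent.Work.MP_974d84_co_circ.Final

/-! # Group connectivity and modular orientations from the strength -/

set_option autoImplicit false

open Finset Matrix

namespace Pool.Agent.Energy

universe u w

variable {V : Type u} {E : Type w} [Fintype V] [DecidableEq V] [Fintype E] [DecidableEq E]

/-- integral net outflow -/
def netZ (s t : E → V) (f : E → ℤ) (v : V) : ℤ :=
  (∑ e, if s e = v then f e else 0) - ∑ e, if t e = v then f e else 0

omit [Fintype V] [DecidableEq E] in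
theorem net_cast (s t : E → V) (f : E → ℤ) (v : V) :
    net s t (fun e => (f e : ℝ)) v = ((netZ s t f v : ℤ) : ℝ) := by
  unfold net netZ
  rw [← Finset.sum_sub_distrib]
  push_cast
  refine Finset.sum_congr rfl fun e _ => ?_
  rw [inc_apply]
  split_ifs <;> ring

omit [Fintype V] [DecidableEq E] in
theorem net_lin (s t : E → V) (z : E → ℝ) (a b : ℝ) (v : V) :
    net s t (fun e => a * z e + b) v = a * net s t z v + b * net s t (fun _ => 1) v := by
  unfold net
  rw [Finset.mul_sum, Finset.mul_sum, ← Finset.sum_add_distrib]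
  exact Finset.sum_congr rfl fun e _ => by ring

omit [Fintype V] [DecidableEq E] in
theorem net_one (s t : E → V) (v : V) :
    net s t (fun _ => 1) v = ((netZ s t (fun _ => 1) v : ℤ) : ℝ) := by
  have := net_cast s t (fun _ => (1 : ℤ)) v
  simpa using this

omit [DecidableEq E] in
theorem sum_netZ (s t : E → V) (f : E → ℤ) : ∑ v, netZ s t f v = 0 := by
  unfold netZ
  rw [Finset.sum_sub_distrib, Finset.sum_comm, Finset.sum_comm (f := fun v e => if t e = v then f e else 0)]
  simp

theorem sum_net (s t : E → V) (f : E → ℝ) : ∑ v, net s t f v = 0 := by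
  unfold net
  rw [Finset.sum_comm]
  refine Finset.sum_eq_zero fun e _ => ?_
  rw [← Finset.mul_sum, inc_sum, mul_zero]

/-- `Z_k`-connectivity -/
theorem group_connected (s t : E → V) (θ : ℝ) (hθ0 : 0 ≤ θ)
    (hθ : ∀ p : V → ℕ, ((univ.image p).card : ℝ) - 1 ≤
      θ * ((univ.filter (fun e => p (s e) ≠ p (t e))).card : ℝ))
    {k : ℕ} (hk : 0 < k) (hkθ : k * θ ≤ k - 2) (β : V → ℤ) (hβ : (k : ℤ) ∣ ∑ v, β v) :
    ∃ f : E → ℤ, (∀ e, 1 ≤ f e ∧ f e ≤ k - 1) ∧ ∀ v, (k : ℤ) ∣ netZ s t f v - β v := by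
  set N : V → ℤ := fun v => netZ s t (fun _ => 1) v with hN
  obtain ⟨z, hz, hzv⟩ := coset s t θ hθ0 hθ (q := 2 * k) (by omega)
    (fun v => 2 * β v - k * N v) (by
      rw [Finset.sum_sub_distrib, ← Finset.mul_sum, ← Finset.mul_sum, hN, sum_netZ, mul_zero,
        sub_zero]
      push_cast
      exact mul_dvd_mul_left 2 hβ)
  choose κ hκ using hzv
  have hnet : ∀ v, net s t (fun e => 1 / 2 * z e + k / 2) v = ((β v + k * κ v : ℤ) : ℝ) := by
    intro v
    rw [net_lin, hκ v, net_one]
    have : ((netZ s t (fun _ => 1) v : ℤ) : ℝ) = N v := rfl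
    rw [this]
    push_cast
    ring
  have hkR : (0 : ℝ) < k := by exact_mod_cast hk
  obtain ⟨f, hf, hfn⟩ := exists_int_flow s t (fun _ => 1) (fun _ => (k : ℤ) - 1)
    (fun v => β v + k * κ v) (fun e => 1 / 2 * z e + k / 2) (by
      intro e
      have h1 := abs_le.1 (hz e)
      have h2 : ((2 * k : ℕ) : ℝ) / 2 * θ = k * θ := by push_cast; ring
      rw [h2] at h1
      push_cast
      constructor <;> linarith [h1.1, h1.2]) hnet
  refine ⟨f, hf, fun v => ⟨κ v, ?_⟩⟩
  have h1 := hfn v
  have h2 : net s t (fun e => (f e : ℝ)) v = ((β v + k * κ v : ℤ) : ℝ) := h1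
  rw [net_cast] at h2
  have h3 : netZ s t f v = β v + k * κ v := by exact_mod_cast h2
  rw [h3]
  ring

/-- modular orientations -/
theorem modular_orientation (s t : E → V) (θ : ℝ) (hθ0 : 0 ≤ θ)
    (hθ : ∀ p : V → ℕ, ((univ.image p).card : ℝ) - 1 ≤
      θ * ((univ.filter (fun e => p (s e) ≠ p (t e))).card : ℝ))
    {m : ℕ} (hm : 0 < m) (hmθ : m * θ ≤ 1) (x0 : V → ℤ)
    (hpar : ∀ v, (2 : ℤ) ∣ x0 v - netZ s t (fun _ => 1) v) (hx0 : (2 * m : ℤ) ∣ ∑ v, x0 v) :
    ∃ σ : E → ℤ, (∀ e, σ e = 1 ∨ σ e = -1) ∧ ∀ v, (2 * m : ℤ) ∣ netZ s t σ v - x0 v := by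
  set N : V → ℤ := fun v => netZ s t (fun _ => 1) v with hN
  obtain ⟨z, hz, hzv⟩ := coset s t θ hθ0 hθ (q := 2 * m) (by omega) x0
    (by push_cast; exact hx0)
  choose κ hκ using hzv
  choose l hl using hpar
  have hnet : ∀ v, net s t (fun e => 1 / 2 * z e + 1 / 2) v = ((l v + N v + m * κ v : ℤ) : ℝ) := by
    intro v
    rw [net_lin, hκ v, net_one]
    have h1 : ((netZ s t (fun _ => 1) v : ℤ) : ℝ) = N v := rfl
    have h2 : (x0 v : ℝ) = 2 * l v + N v := by
      have : x0 v = 2 * l v + N v := by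
        have := hl v
        simp only [hN]
        linarith
      rw [this]; push_cast; ring
    rw [h1, h2]
    push_cast
    ring
  obtain ⟨f, hf, hfn⟩ := exists_int_flow s t (fun _ => 0) (fun _ => 1)
    (fun v => l v + N v + m * κ v) (fun e => 1 / 2 * z e + 1 / 2) (by
      intro e
      have h1 := abs_le.1 (hz e)
      have h2 : ((2 * m : ℕ) : ℝ) / 2 * θ = m * θ := by push_cast; ring
      rw [h2] at h1
      push_cast
      constructor <;> linarith [h1.1, h1.2]) hnet
  refine ⟨fun e => 2 * f e - 1, fun e => ?_, fun v => ⟨κ v, ?_⟩⟩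
  · have := hf e
    rcases (by omega : f e = 0 ∨ f e = 1) with h | h
    · right; show 2 * f e - 1 = -1; rw [h]; ring
    · left; show 2 * f e - 1 = 1; rw [h]; ring
  · have h1 : net s t (fun e => (f e : ℝ)) v = ((l v + N v + m * κ v : ℤ) : ℝ) := hfn v
    rw [net_cast] at h1
    have h3 : netZ s t f v = l v + N v + m * κ v := by exact_mod_cast h1
    have h4 : netZ s t (fun e => 2 * f e - 1) v = 2 * netZ s t f v - N v := by
      have h6 : net s t (fun e => ((2 * f e - 1 : ℤ) : ℝ)) v
          = 2 * net s t (fun e => (f e : ℝ)) v + (-1) * net s t (fun _ => 1) v := by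
        rw [← net_lin]
        congr 1
        ext e
        push_cast
        ring
      rw [net_cast, net_cast, net_one] at h6
      have h7 : ((netZ s t (fun e => 2 * f e - 1) v : ℤ) : ℝ)
          = ((2 * netZ s t f v - N v : ℤ) : ℝ) := by
        rw [h6]
        push_cast
        ring
      exact_mod_cast h7
    have h5 : x0 v = 2 * l v + N v := by
      have := hl v
      simp only [hN]
      linarith
    rw [h4, h3, h5]
    ring

end Pool.Agent.Energy
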