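import Pool.Agent.Work.Energy.Basic

/-! # Weights with small edge probabilities

If `∏ c ≤ c e₀ (det L_c)^m` for all conductances in `(0,1]`, then some conductances satisfy
`c_e R_e ≤ 1/m` for all edges. -/

set_option autoImplicit false

open Finset Matrix

namespace Pool.Agent.Energy

variable {V E : Type*} [Fintype V] [DecidableEq V] [Fintype E] [DecidableEq E]

/-- effective resistance times conductance -/
noncomputable def prb (s t : E → V) (r : V) (c : E → ℝ) (e : E) : ℝ :=
  c e * (inc s t e ⬝ᵥ ((lap s t r c)⁻¹ *ᵥ inc s t e))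

omit [DecidableEq E] in
theorem continuous_lap_det (s t : E → V) (r : V) :
    Continuous fun c : E → ℝ => (lap s t r c).det := by
  apply Continuous.matrix_det
  unfold lap
  refine continuous_const.add ?_
  refine continuous_finset_sum _ fun e _ => ?_
  exact (continuous_apply e).smul continuous_const

/-- elementary: `(1-s) ≤ (1-sp)^m` for all small `s` forces `m p ≤ 1`. -/
theorem mul_le_one_of_pow {m : ℕ} (hm : 1 ≤ m) {p : ℝ} (hp : 0 ≤ p)
    (h : ∀ s : ℝ, 0 < s → s < 1 → s * p < 1 ∧ 1 - s ≤ (1 - s * p) ^ m) : p * m ≤ 1 := by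
  by_contra hcon
  push Not at hcon
  have hm' : (1 : ℝ) ≤ m := by exact_mod_cast hm
  have hpm : 0 < p * m := by linarith
  set s : ℝ := (p * m - 1) / (2 * (p * m)) with hs
  have hs0 : 0 < s := div_pos (by linarith) (by linarith)
  have hs1 : s < 1 := by
    rw [hs, div_lt_one (by linarith)]
    linarith
  obtain ⟨h1, h2⟩ := h s hs0 hs1
  have hy0 : 0 ≤ s * p := mul_nonneg hs0.le hp
  have hb : 1 + (m : ℝ) * (s * p) ≤ (1 + s * p) ^ m := one_add_mul_le_pow (by linarith) m
  have h3 : (1 - s * p) ^ m * (1 + (m : ℝ) * (s * p)) ≤ 1 := by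
    calc (1 - s * p) ^ m * (1 + (m : ℝ) * (s * p))
        ≤ (1 - s * p) ^ m * (1 + s * p) ^ m :=
          mul_le_mul_of_nonneg_left hb (pow_nonneg (by linarith) m)
      _ = (1 - (s * p) ^ 2) ^ m := by rw [← mul_pow]; ring_nf
      _ ≤ 1 := pow_le_one₀ (by nlinarith) (by nlinarith)
  have h4 : (1 - s) * (1 + (m : ℝ) * (s * p)) ≤ 1 :=
    le_trans (mul_le_mul_of_nonneg_right h2 (by positivity)) h3
  have h5 : s * (p * m - 1 - s * (p * m)) ≤ 0 := by nlinarith
  have h6 : s * (p * m) = (p * m - 1) / 2 := by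
    rw [hs, div_mul_eq_mul_div, div_eq_div_iff (by positivity) two_ne_zero]
    ring
  rw [h6] at h5
  have : 0 < s * (p * m - 1 - (p * m - 1) / 2) := mul_pos hs0 (by linarith)
  linarith

theorem exists_weights {s t : E → V} (r : V) {m : ℕ} (hm : 1 ≤ m)
    (hcon : ∀ S : Finset V, S.Nonempty → S ≠ univ → (cut s t S).Nonempty)
    (hF : ∀ c : E → ℝ, (∀ e, 0 < c e ∧ c e ≤ 1) → ∀ e0,
      ∏ e, c e ≤ c e0 * (lap s t r c).det ^ m) :
    ∃ c : E → ℝ, (∀ e, 0 < c e ∧ c e ≤ 1) ∧ ∀ e, prb s t r c e * m ≤ 1 := by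
  classical
  have hpd : ∀ c : E → ℝ, (∀ e, 0 < c e) → (lap s t r c).PosDef := fun c hc => lap_posDef r hc hcon
  have hdet : ∀ c : E → ℝ, (∀ e, 0 < c e) → 0 < (lap s t r c).det := fun c hc => (hpd c hc).det_pos
  set F : (E → ℝ) → ℝ := fun c => (∏ e, c e) / (lap s t r c).det ^ m with hFdef
  have hF1 : 0 < F (fun _ => 1) := by
    have := hdet (fun _ => 1) (fun _ => one_pos)
    simp only [hFdef, Finset.prod_const_one]
    positivity
  set δ : ℝ := min (F (fun _ => 1)) 1 / 2 with hδ
  have hδ0 : 0 < δ := by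
    have : 0 < min (F (fun _ => 1)) 1 := lt_min hF1 one_pos
    linarith
  have hδ1 : δ ≤ 1 / 2 := by
    have : min (F (fun _ => 1)) 1 ≤ 1 := min_le_right _ _
    linarith
  have hδF : δ < F (fun _ => 1) := by
    have : min (F (fun _ => 1)) 1 ≤ F (fun _ => 1) := min_le_left _ _
    linarith
  set K : Set (E → ℝ) := Set.pi Set.univ fun _ => Set.Icc δ 1 with hK
  have hKc : IsCompact K := isCompact_univ_pi fun _ => isCompact_Icc
  have h1K : (fun _ => (1 : ℝ)) ∈ K := by
    intro e _
    exact ⟨by linarith, le_rfl⟩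
  have hcont : ContinuousOn F K := by
    apply ContinuousOn.div
    · exact (continuous_finset_prod _ fun e _ => continuous_apply e).continuousOn
    · exact ((continuous_lap_det s t r).pow m).continuousOn
    · intro c hc
      exact pow_ne_zero m (hdet c fun e => lt_of_lt_of_le hδ0 (hc e (Set.mem_univ e)).1).ne'
  obtain ⟨c, hcK, hmax⟩ := hKc.exists_isMaxOn ⟨_, h1K⟩ hcont
  have hc0 : ∀ e, 0 < c e := fun e => lt_of_lt_of_le hδ0 (hcK e (Set.mem_univ e)).1
  have hc1 : ∀ e, c e ≤ 1 := fun e => (hcK e (Set.mem_univ e)).2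
  have hglob : ∀ c' : E → ℝ, (∀ e, 0 < c' e ∧ c' e ≤ 1) → F c' ≤ F c := by
    intro c' hc'
    by_cases hmem : c' ∈ K
    · exact hmax hmem
    · have : ∃ e0, c' e0 < δ := by
        by_contra hno
        push Not at hno
        exact hmem fun e _ => ⟨hno e, (hc' e).2⟩
      obtain ⟨e0, he0⟩ := this
      have hd := hdet c' fun e => (hc' e).1
      have h2 : F c' ≤ c' e0 := by
        simp only [hFdef]
        rw [div_le_iff₀ (pow_pos hd m)]
        exact hF c' hc' e0
      have h3 : F (fun _ => 1) ≤ F c := hmax h1K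
      linarith
  refine ⟨c, fun e => ⟨hc0 e, hc1 e⟩, fun e => ?_⟩
  have hd := hdet c hc0
  have hRnn : 0 ≤ prb s t r c e := by
    refine mul_nonneg (hc0 e).le ?_
    have := (hpd c hc0).inv.posSemidef.dotProduct_mulVec_nonneg (inc s t e)
    have hstar : star (inc s t e) = inc s t e := by ext i; simp
    rwa [hstar] at this
  refine mul_le_one_of_pow hm hRnn fun σ hσ0 hσ1 => ?_
  set c' : E → ℝ := Function.update c e ((1 - σ) * c e) with hc'
  have hc'0 : ∀ x, 0 < c' x ∧ c' x ≤ 1 := by
    intro x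
    by_cases hx : x = e
    · subst hx
      rw [hc', Function.update_self]
      constructor
      · exact mul_pos (by linarith) (hc0 x)
      · nlinarith [hc0 x, hc1 x]
    · rw [hc', Function.update_of_ne hx]
      exact ⟨hc0 x, hc1 x⟩
  have hprod : ∏ x, c' x = (1 - σ) * ∏ x, c x := by
    rw [← Finset.mul_prod_erase univ c' (mem_univ e), ← Finset.mul_prod_erase univ c (mem_univ e)]
    rw [hc', Function.update_self, ← mul_assoc]
    congr 1
    refine Finset.prod_congr rfl fun x hx => ?_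
    rw [Function.update_of_ne (Finset.ne_of_mem_erase hx)]
  have hdet' : (lap s t r c').det = (lap s t r c).det * (1 - σ * prb s t r c e) := by
    rw [hc', lap_update, det_add_rank_one hd.ne'.isUnit]
    congr 1
    rw [prb]
    ring
  have hd' := hdet c' fun x => (hc'0 x).1
  have h1p : 0 < 1 - σ * prb s t r c e := by
    rw [hdet'] at hd'
    exact pos_of_mul_pos_right hd' hd.le
  refine ⟨by linarith, ?_⟩
  have hle := hglob c' hc'0
  simp only [hFdef] at hle
  rw [hprod, hdet', mul_pow, div_le_div_iff₀ (by positivity) (by positivity)] at hle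
  have hP : 0 < ∏ x, c x := Finset.prod_pos fun x _ => hc0 x
  have hD : 0 < (lap s t r c).det ^ m := pow_pos hd m
  have : (1 - σ) * ((∏ x, c x) * (lap s t r c).det ^ m)
      ≤ (1 - σ * prb s t r c e) ^ m * ((∏ x, c x) * (lap s t r c).det ^ m) := by nlinarith
  exact le_of_mul_le_mul_right this (mul_pos hP hD)

end Pool.Agent.Energy
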